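import Pool.Agent.U725.OM.Full

/-!
# The unipotent part
-/

set_option autoImplicit false
set_option linter.unusedSectionVars false

open Matrix

namespace Pool.Agent.U725.OM

open Pool.Agent.TH127.PT Pool.Agent.TH119.MX Pool.Agent.TH119.DR Pool.Agent.Y123.ST

variable {ρ m : ℕ} {I : Type} [Fintype I] [DecidableEq I]
variable {P Q : I → Fin ρ} {k : ℂ} {K : Subfield ℂ}
  {T : Set (Matrix (BB ρ I m) (BB ρ I m) ℂ)}
variable {Ω : M2} {τ : ℂ} {U : Fin ρ → Fin 2 → ℂ} {s : I → ℂ} {b : Fin m → ℂ}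
  (h : Sit K P Q k T Ω τ U s b)

theorem fin2 (c : Fin 2) : c = 0 ∨ c = 1 := by
  fin_cases c <;> simp

/-- a proper rational subspace is annihilated by a rational functional -/
theorem exists_ann {n : ℕ} (W : Submodule ℂ (Fin n → ℂ))
    (hW : ∀ σ : ℂ ≃+* ℂ, (∀ x ∈ K, σ x = x) → ∀ v ∈ W, (fun i => σ (v i)) ∈ W)
    {v : Fin n → ℂ} (hv : v ∉ W) :
    ∃ lam : Fin n → ℂ, lam ≠ 0 ∧ (∀ j, lam j ∈ K) ∧ ∀ y ∈ W, ∑ j, lam j * y j = 0 := by
  obtain ⟨f, hf1, hf2⟩ := Submodule.exists_le_ker_of_notMem hv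
  have hf3 : ∀ a : Fin n → ℂ, f a = ∑ b, f (Pi.single b 1) * a b := by
    intro a
    conv_lhs => rw [LinearMap.pi_apply_eq_sum_univ f a]
    refine Finset.sum_congr rfl fun b _ => ?_
    have h : (fun j => if b = j then (1 : ℂ) else 0) = Pi.single b 1 := by
      funext j
      simp [Pi.single_apply, eq_comm]
    rw [h, smul_eq_mul, mul_comm]
  let An : Submodule ℂ (Fin n → ℂ) :=
    { carrier := {u | ∀ a ∈ W, ∑ b, u b * a b = 0}
      zero_mem' := by intro a _; simp
      add_mem' := by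
        intro u v hu hv a ha
        simp only [Pi.add_apply, add_mul, Finset.sum_add_distrib]
        rw [hu a ha, hv a ha, add_zero]
      smul_mem' := by
        intro z u hu a ha
        simp only [Pi.smul_apply, smul_eq_mul, mul_assoc, ← Finset.mul_sum]
        rw [hu a ha, mul_zero] }
  have hAn : ∀ σ : ℂ ≃+* ℂ, (∀ x ∈ K, σ x = x) → ∀ v ∈ An, (fun i => σ (v i)) ∈ An := by
    intro σ hσ u hu a ha
    have h1 := hu _ (hW σ.symm (symm_fix hσ) a ha)
    have h2 := congrArg σ h1
    rw [map_zero, map_sum] at h2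
    rw [← h2]
    refine Finset.sum_congr rfl fun b _ => ?_
    rw [map_mul]
    simp
  have hfA : (fun j => f (Pi.single j 1)) ∈ An := by
    intro a ha
    rw [← hf3]
    exact hf2 ha
  obtain ⟨j₀, hj₀⟩ : ∃ j, f (Pi.single j 1) ≠ 0 := by
    by_contra hcon
    push Not at hcon
    apply hf1
    rw [hf3]
    exact Finset.sum_eq_zero fun j _ => by rw [hcon j, zero_mul]
  obtain ⟨lam, h1, h2, h3⟩ := exists_rat An hAn (LinearMap.proj j₀) ⟨_, hfA, hj₀⟩
  refine ⟨lam, fun h0 => h3 ?_, h2, fun y hy => h1 y hy⟩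
  rw [h0]
  simp

include h

/-- Step B: the part of weight `-1`. -/
theorem Sit.weight_one (Y : Fin ρ → Fin 2 → ℂ) : ∃ t z, InL P Q k T 0 Y t z := by
  -- multiplication by matrices
  have hmul : ∀ (Y : Fin ρ → Fin 2 → ℂ) (A : M2), (∃ t z, InL P Q k T 0 Y t z) →
      ∃ t z, InL P Q k T 0 (fun j c => Y j 0 * A 0 c + Y j 1 * A 1 c) t z := by
    rintro Y A ⟨t, z, h1⟩
    obtain ⟨Y', t', z', h2⟩ := h.proj_all A
    have h3 := h1.br h2
    rw [Matrix.zero_mul, Matrix.mul_zero, sub_zero] at h3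
    have h4 : (fun (j : Fin ρ) (c : Fin 2) => (Y j 0 * A 0 c + Y j 1 * A 1 c) -
        (Y' j 0 * (0 : M2) 0 c + Y' j 1 * (0 : M2) 1 c)) =
        fun j c => Y j 0 * A 0 c + Y j 1 * A 1 c := by
      funext j c
      simp
    rw [h4] at h3
    exact ⟨_, _, h3⟩
  let W : Submodule ℂ (Fin ρ → ℂ) :=
    { carrier := {y | ∃ t z, InL P Q k T 0 (fun j => ![y j, 0]) t z}
      zero_mem' := by
        refine ⟨0, 0, ?_⟩
        have : (fun j : Fin ρ => ![(0 : Fin ρ → ℂ) j, 0]) = (0 : Fin ρ → Fin 2 → ℂ) := by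
          funext j c
          fin_cases c <;> simp
        rw [this]
        exact InL.zero
      add_mem' := by
        rintro y y' ⟨t, z, h1⟩ ⟨t', z', h2⟩
        refine ⟨t + t', z + z', ?_⟩
        have h3 := h1.add h2
        have : (fun j : Fin ρ => ![(y + y') j, 0]) = (fun j => ![y j, 0]) + fun j => ![y' j, 0] := by
          funext j c
          fin_cases c <;> simp
        rw [this]
        rw [add_zero] at h3
        exact h3
      smul_mem' := by
        rintro c y ⟨t, z, h1⟩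
        refine ⟨c • t, c • z, ?_⟩
        have h3 := h1.smul c
        have : (fun j : Fin ρ => ![(c • y) j, 0]) = c • (fun j => ![y j, 0]) := by
          funext j c'
          fin_cases c' <;> simp
        rw [this]
        rw [smul_zero] at h3
        exact h3 }
  have hcol : ∀ Y : Fin ρ → Fin 2 → ℂ, (∃ t z, InL P Q k T 0 Y t z) → ∀ c,
      (fun j => Y j c) ∈ W := by
    intro Y hY c
    rcases fin2 c with rfl | rfl
    · obtain ⟨t, z, h1⟩ := hmul Y !![1, 0; 0, 0] hY
      refine ⟨t, z, ?_⟩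
      have : (fun j => ![Y j 0, 0]) =
          fun (j : Fin ρ) (c : Fin 2) => Y j 0 * (!![1, 0; 0, 0] : M2) 0 c +
            Y j 1 * (!![1, 0; 0, 0] : M2) 1 c := by
        funext j c
        fin_cases c <;> simp
      rw [this]
      exact h1
    · obtain ⟨t, z, h1⟩ := hmul Y !![0, 0; 1, 0] hY
      refine ⟨t, z, ?_⟩
      have : (fun j => ![Y j 1, 0]) =
          fun (j : Fin ρ) (c : Fin 2) => Y j 0 * (!![0, 0; 1, 0] : M2) 0 c +
            Y j 1 * (!![0, 0; 1, 0] : M2) 1 c := by
        funext j c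
        fin_cases c <;> simp
      rw [this]
      exact h1
  have hWall : ∀ y, y ∈ W := by
    by_contra hcon
    push Not at hcon
    obtain ⟨v, hv⟩ := hcon
    obtain ⟨lam, hl0, hlK, hlW⟩ := exists_ann (K := K) W (by
      rintro σ hσ v ⟨t, z, h1⟩
      refine ⟨fun e => σ (t e), fun i => σ (z i), ?_⟩
      have h2 := h1.aut h.hT hσ h.kK
      have e1 : (0 : M2).map σ = 0 := Matrix.map_zero _ (map_zero σ)
      have e2 : (fun j : Fin ρ => ![(fun i => σ (v i)) j, 0]) =
          fun (j : Fin ρ) (c : Fin 2) => σ (![v j, 0] c) := by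
        funext j c
        fin_cases c <;> simp
      rw [e1] at h2
      rw [e2]
      exact h2) hv
    have hlN : ∀ Y : Fin ρ → Fin 2 → ℂ, (∃ t z, InL P Q k T 0 Y t z) → ∀ c,
        ∑ j, lam j * Y j c = 0 := fun Y hY c => hlW _ (hcol Y hY c)
    obtain ⟨Y1, t1, z1, h1⟩ := h.proj_all 1
    set v : Fin 2 → ℂ := fun c => ∑ j, lam j * Y1 j c with hvdef
    have hcoc : ∀ A Y t z, InL P Q k T A Y t z → ∀ c,
        ∑ j, lam j * Y j c = v 0 * A 0 c + v 1 * A 1 c := by
      intro A Y t z hA c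
      have h2 := hA.br h1
      rw [Matrix.mul_one, Matrix.one_mul, sub_self] at h2
      have h3 := hlN _ ⟨_, _, h2⟩ c
      have h4 : ∀ j, lam j * ((Y j 0 * (1 : M2) 0 c + Y j 1 * (1 : M2) 1 c) -
          (Y1 j 0 * A 0 c + Y1 j 1 * A 1 c)) =
          lam j * Y j c - ((lam j * Y1 j 0) * A 0 c + (lam j * Y1 j 1) * A 1 c) := by
        intro j
        rcases fin2 c with rfl | rfl <;> simp <;> ring
      rw [Finset.sum_congr rfl fun j _ => h4 j, Finset.sum_sub_distrib, Finset.sum_add_distrib,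
        ← Finset.sum_mul, ← Finset.sum_mul, sub_eq_zero] at h3
      exact h3
    have hvK : ∀ c, v c ∈ K := by
      intro c
      refine mem_of_fixed fun σ hσ => ?_
      have h2 := h1.aut h.hT hσ h.kK
      have e1 : (1 : M2).map σ = 1 := Matrix.map_one _ (map_zero σ) (map_one σ)
      rw [e1] at h2
      have h3 := hcoc _ _ _ _ h2 c
      have h4 : σ (v c) = ∑ j, lam j * σ (Y1 j c) := by
        rw [hvdef, map_sum]
        refine Finset.sum_congr rfl fun j _ => ?_
        rw [map_mul, hσ _ (hlK j)]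
      rw [h4, h3]
      rcases fin2 c with rfl | rfl <;> simp
    have hD : ∀ c, ∑ j, lam j * U j c - (v 0 * Ω 0 c + v 1 * Ω 1 c) ∈ K := by
      intro c
      refine mem_of_der h.hK fun D => ?_
      obtain ⟨A, Y, t, z, h2, h3, h4, -⟩ := h.logd D
      have h5 := hcoc A Y t z h2
      rw [map_sub, map_add, map_sum, Derivation.leibniz, Derivation.leibniz, der_of_mem D (hvK 0),
        der_of_mem D (hvK 1)]
      have h6 : ∀ j, D (lam j * U j c) = lam j * Y j 0 * Ω 0 c + lam j * Y j 1 * Ω 1 c := by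
        intro j
        rw [Derivation.leibniz, der_of_mem D (hlK j), ← h4, smul_eq_mul, smul_zero]
        ring
      rw [Finset.sum_congr rfl fun j _ => h6 j, Finset.sum_add_distrib, ← Finset.sum_mul,
        ← Finset.sum_mul, h5, h5, ← h3, ← h3]
      simp only [smul_eq_mul, mul_zero, add_zero]
      ring
    have h2 := h.ell 0 1 K.zero_mem K.one_mem (Or.inr one_ne_zero) lam (fun a => -v a) hlK
      (fun a => K.neg_mem (hvK a)) (by
        have h3 := hD 0
        have h4 : ∑ j, lam j * (0 * U j 1 + 1 * U j 0) + ∑ a, -v a * (0 * Ω a 1 + 1 * Ω a 0) =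
            ∑ j, lam j * U j 0 - (v 0 * Ω 0 0 + v 1 * Ω 1 0) := by
          rw [Fin.sum_univ_two]
          have : ∀ j, lam j * (0 * U j 1 + 1 * U j 0) = lam j * U j 0 := fun j => by ring
          rw [Finset.sum_congr rfl fun j _ => this j]
          ring
        rw [h4]
        exact h3)
    exact hl0 h2.1
  -- assemble
  obtain ⟨t0, z0, g0⟩ := hWall (fun j => Y j 0)
  obtain ⟨t1, z1, g1⟩ := hWall (fun j => Y j 1)
  obtain ⟨t2, z2, g2⟩ := hmul (fun j => ![Y j 1, 0]) !![0, 1; 0, 0] ⟨t1, z1, g1⟩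
  refine ⟨t0 + t2, z0 + z2, ?_⟩
  have h3 := g0.add g2
  rw [add_zero] at h3
  have h4 : (fun j => ![Y j 0, 0]) + (fun (j : Fin ρ) (c : Fin 2) =>
      (![Y j 1, 0] : Fin 2 → ℂ) 0 * (!![0, 1; 0, 0] : M2) 0 c +
        (![Y j 1, 0] : Fin 2 → ℂ) 1 * (!![0, 1; 0, 0] : M2) 1 c) = Y := by
    funext j c
    fin_cases c <;> simp
  rw [h4] at h3
  exact h3

/-- Step C: the integrals of the third kind. -/
theorem Sit.weight_two (t : I → ℂ) : InL P Q k T 0 0 t (0 : Fin m → ℂ) := by
  have hsingle : ∀ e : I, InL P Q k T 0 0 (Pi.single e 1) (0 : Fin m → ℂ) := by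
    intro e
    obtain ⟨t1, z1, h1⟩ := h.weight_one (fun j => if j = P e then ![1, 0] else 0)
    obtain ⟨t2, z2, h2⟩ := h.weight_one (fun j => if j = Q e then ![0, 1] else 0)
    have h3 := h1.br h2
    rw [Matrix.zero_mul, sub_self] at h3
    set cc : ℂ := -(k * (1 + if P e = Q e then 1 else 0)) with hcc
    have hcc0 : cc ≠ 0 := by
      rw [hcc, neg_ne_zero]
      refine mul_ne_zero h.k0 ?_
      split_ifs
      · norm_num
      · norm_num
    have h4 := h3.smul cc⁻¹
    rw [smul_zero] at h4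
    convert h4 using 1
    · funext j c
      simp
    · funext e'
      simp only [Matrix.zero_apply, add_zero, mul_zero, zero_add, Pi.smul_apply, smul_eq_mul]
      by_cases he : e' = e
      · subst he
        rw [Pi.single_eq_same, eq_comm, inv_mul_eq_one₀ hcc0, hcc]
        by_cases hPQ : P e' = Q e'
        · simp [hPQ]
          ring
        · simp [hPQ, Ne.symm hPQ]
      · rw [Pi.single_eq_of_ne he, eq_comm]
        apply mul_eq_zero_of_right
        have n1 : ¬ (P e' = P e ∧ Q e' = Q e) := fun hh => he (h.inj _ _ (Or.inl hh))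
        have n2 : ¬ (P e' = Q e ∧ Q e' = P e) := fun hh => he (h.inj _ _ (Or.inr hh))
        by_cases a1 : P e' = P e
        · have a2 : Q e' ≠ Q e := fun hh => n1 ⟨a1, hh⟩
          by_cases a3 : P e' = Q e
          · have a4 : Q e' ≠ P e := fun hh => n2 ⟨a3, hh⟩
            simp [a2, a4]
          · simp [a2, a3]
        · by_cases a3 : P e' = Q e
          · have a4 : Q e' ≠ P e := fun hh => n2 ⟨a3, hh⟩
            simp [a1, a4]
          · simp [a1, a3]
    · funext i
      simp
  have hsum : t = ∑ e, t e • Pi.single e (1 : ℂ) := by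
    funext e
    rw [Finset.sum_apply, Finset.sum_eq_single e]
    · simp
    · intro e' _ he'
      simp [Pi.single_apply, he'.symm]
    · intro he
      exact absurd (Finset.mem_univ _) he
  rw [hsum]
  have key : ∀ S : Finset I, InL P Q k T 0 0 (∑ e ∈ S, t e • Pi.single e (1 : ℂ)) (0 : Fin m → ℂ) := by
    intro S
    classical
    induction S using Finset.induction_on with
    | empty =>
      rw [Finset.sum_empty]
      exact InL.zero
    | insert e S he ih =>
      rw [Finset.sum_insert he]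
      have h5 := ((hsingle e).smul (t e)).add ih
      rw [smul_zero, smul_zero, smul_zero, add_zero, add_zero, add_zero] at h5
      exact h5
  exact key Finset.univ

/-- Step D: the logarithms. -/
theorem Sit.weight_two' (z : Fin m → ℂ) : InL P Q k T 0 0 (0 : I → ℂ) z := by
  let W : Submodule ℂ (Fin m → ℂ) :=
    { carrier := {y | InL P Q k T 0 0 (0 : I → ℂ) y}
      zero_mem' := InL.zero
      add_mem' := by
        intro y y' h1 h2
        have h3 := InL.add h1 h2
        rw [add_zero, add_zero, add_zero] at h3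
        exact h3
      smul_mem' := by
        intro c y h1
        have h3 := InL.smul c h1
        rw [smul_zero, smul_zero, smul_zero] at h3
        exact h3 }
  by_contra hz
  obtain ⟨μ, hμ0, hμK, hμW⟩ := exists_ann (K := K) W (by
      intro σ hσ v h1
      have h2 := InL.aut h.hT hσ h.kK h1
      have e1 : (0 : M2).map σ = 0 := Matrix.map_zero _ (map_zero σ)
      have e2 : (fun (j : Fin ρ) (c : Fin 2) => σ ((0 : Fin ρ → Fin 2 → ℂ) j c)) = 0 := by
        funext j c
        simp
      have e3 : (fun e : I => σ ((0 : I → ℂ) e)) = 0 := by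
        funext e
        simp
      rw [e1, e2, e3] at h2
      exact h2) (v := z) hz
  obtain ⟨Y1, t1, z1, h1⟩ := h.proj_all 1
  -- the functional vanishes on the unipotent part
  have hun : ∀ Y t z, InL P Q k T 0 Y t z → ∑ i, μ i * z i = 0 := by
    intro Y t z h2
    have h3 := (h1.br h2).add h2
    rw [Matrix.one_mul, Matrix.mul_one, sub_self, add_zero] at h3
    have e1 : (fun (j : Fin ρ) (c : Fin 2) => (Y1 j 0 * (0 : M2) 0 c + Y1 j 1 * (0 : M2) 1 c) -
        (Y j 0 * (1 : M2) 0 c + Y j 1 * (1 : M2) 1 c)) + Y = 0 := by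
      funext j c
      fin_cases c <;> simp
    rw [e1] at h3
    obtain ⟨tt, h3'⟩ : ∃ tt, InL P Q k T 0 0 tt ((fun i => z1 i * ((0 : M2) 0 0 + (0 : M2) 1 1) -
        z i * ((1 : M2) 0 0 + (1 : M2) 1 1)) + z) := ⟨_, h3⟩
    have h4 := h3'.sub (h.weight_two tt)
    rw [sub_zero, sub_zero, sub_self, sub_zero] at h4
    have h5 := hμW _ h4
    have e2 : ∀ i, μ i * ((fun i => z1 i * ((0 : M2) 0 0 + (0 : M2) 1 1) -
        z i * ((1 : M2) 0 0 + (1 : M2) 1 1)) + z) i = -(μ i * z i) := by
      intro i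
      simp
      ring
    rw [Finset.sum_congr rfl fun i _ => e2 i, Finset.sum_neg_distrib, neg_eq_zero] at h5
    exact h5
  set ν : ℂ := (∑ i, μ i * z1 i) / 2 with hν
  have hcoc : ∀ A Y t z, InL P Q k T A Y t z → ∑ i, μ i * z i = ν * (A 0 0 + A 1 1) := by
    intro A Y t z h2
    have h3 := h2.br h1
    rw [Matrix.one_mul, Matrix.mul_one, sub_self] at h3
    have h4 := hun _ _ _ h3
    have e2 : ∀ i, μ i * (z i * ((1 : M2) 0 0 + (1 : M2) 1 1) - z1 i * (A 0 0 + A 1 1)) =
        2 * (μ i * z i) - (μ i * z1 i) * (A 0 0 + A 1 1) := by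
      intro i
      simp
      ring
    rw [Finset.sum_congr rfl fun i _ => e2 i, Finset.sum_sub_distrib, ← Finset.mul_sum,
      ← Finset.sum_mul] at h4
    rw [hν]
    linear_combination h4 / 2
  have hνK : ν ∈ K := by
    refine mem_of_fixed fun σ hσ => ?_
    have h2 := h1.aut h.hT hσ h.kK
    have e1 : (1 : M2).map σ = 1 := Matrix.map_one _ (map_zero σ) (map_one σ)
    rw [e1] at h2
    have h3 := hcoc _ _ _ _ h2
    have h4 : σ ν = (∑ i, μ i * σ (z1 i)) / 2 := by
      rw [hν, map_div₀, map_sum]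
      congr 1
      · refine Finset.sum_congr rfl fun j _ => ?_
        rw [map_mul, hσ _ (hμK j)]
      · exact map_ofNat σ 2
    rw [h4, h3]
    simp
    ring
  have hD : ∑ i, μ i * b i + (-ν) * τ ∈ K := by
    refine mem_of_der h.hK fun D => ?_
    obtain ⟨A, Y, t, z, h2, -, -, h5, h6⟩ := h.logd D
    have h7 := hcoc A Y t z h2
    rw [map_add, map_sum, Derivation.leibniz, der_of_mem D (K.neg_mem hνK)]
    have h8 : ∀ i, D (μ i * b i) = (μ i * z i) * τ := by
      intro i
      rw [Derivation.leibniz, der_of_mem D (hμK i), ← h6, smul_eq_mul, smul_zero]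
      ring
    rw [Finset.sum_congr rfl fun i _ => h8 i, ← Finset.sum_mul, h7, ← h5]
    simp only [smul_eq_mul, mul_zero, add_zero]
    ring
  exact hμ0 (h.bak μ (-ν) hμK (K.neg_mem hνK) hD).1

/-- Step E: the Lie algebra is everything. -/
theorem Sit.all (A : M2) (Y : Fin ρ → Fin 2 → ℂ) (t : I → ℂ) (z : Fin m → ℂ) :
    InL P Q k T A Y t z := by
  obtain ⟨Y1, t1, z1, h1⟩ := h.proj_all A
  obtain ⟨t2, z2, h2⟩ := h.weight_one (Y - Y1)
  have h3 := h1.add h2
  rw [add_zero, add_sub_cancel] at h3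
  have h4 := (h3.add (h.weight_two (t - (t1 + t2)))).add (h.weight_two' (z - (z1 + z2)))
  rw [add_zero, add_zero, add_zero, add_zero, add_zero, add_zero, add_sub_cancel,
    add_sub_cancel] at h4
  exact h4

end Pool.Agent.U725.OM
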