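import Pool.Agent.U725.OM.Tors
import Pool.Agent.W245.EB.RedZ
import Pool.Agent.H335R2.BakerInhom
import Pool.Agent.TH813.EKBase

/-!
# The arithmetic input
-/

set_option autoImplicit false
set_option linter.unusedSectionVars false

open Matrix
open scoped PeriodPair

namespace Pool.Agent.U725.OM

open H667R3 Pool.Agent.W245.EB

noncomputable section

/-- the field of algebraic numbers -/
def QB : Subfield ℂ := (algebraicClosure ℚ ℂ).toSubfield

theorem mem_QB {x : ℂ} : x ∈ QB ↔ IsAlgebraic ℚ x := by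
  unfold QB
  rw [IntermediateField.mem_toSubfield, mem_algebraicClosure_iff]

variable {L : PeriodPair}

theorem eta_half {l : ℂ} (hl : l ∈ L.lattice) (h2 : l / 2 ∉ L.lattice) :
    eta L l = 2 * zeta L (l / 2) := by
  have h1 : -(l / 2) ∉ L.lattice := fun h => h2 (by simpa using neg_mem h)
  have h3 := zeta_add_coe L h1 hl
  have h4 : -(l / 2) + l = l / 2 := by ring
  rw [h4, zeta_neg] at h3
  linear_combination -h3

theorem half_notMem_one (L : PeriodPair) : L.ω₁ / 2 ∉ L.lattice := by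
  intro h
  rw [PeriodPair.mem_lattice] at h
  obtain ⟨a, b, hab⟩ := h
  have h1 := L.indep
  rw [LinearIndependent.pair_iff] at h1
  have h2 := h1 ((a : ℝ) - 1 / 2) b (by
    simp only [Complex.real_smul]
    push_cast
    linear_combination hab)
  have h3 : (2 * a : ℤ) = 1 := by
    have : (2 : ℝ) * a = 1 := by linarith [h2.1]
    exact_mod_cast this
  omega

theorem half_notMem_two (L : PeriodPair) : L.ω₂ / 2 ∉ L.lattice := by
  intro h
  rw [PeriodPair.mem_lattice] at h
  obtain ⟨a, b, hab⟩ := h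
  have h1 := L.indep
  rw [LinearIndependent.pair_iff] at h1
  have h2 := h1 a ((b : ℝ) - 1 / 2) (by
    simp only [Complex.real_smul]
    push_cast
    linear_combination hab)
  have h3 : (2 * b : ℤ) = 1 := by
    have : (2 : ℝ) * b = 1 := by linarith [h2.2]
    exact_mod_cast this
  omega

/-- linear forms in elliptic integrals of the second kind and periods -/
theorem ell_of (h2 : IsAlgebraic ℚ L.g₂) (h3 : IsAlgebraic ℚ L.g₃)
    (hL : ∀ β ∈ kL L, ∃ q : ℚ, β = q) {ρ : ℕ} {w : Fin ρ → ℂ}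
    (hw : ∀ j, w j ∉ L.lattice ∧ IsAlgebraic ℚ (℘[L] (w j)))
    (hi : LinearIndependent ℚ (Fin.append ![L.ω₁, L.ω₂] w))
    (σ r : ℂ) (hσ : IsAlgebraic ℚ σ) (hr : IsAlgebraic ℚ r) (hσr : σ ≠ 0 ∨ r ≠ 0)
    (lam : Fin ρ → ℂ) (γ : Fin 2 → ℂ) (hlam : ∀ j, IsAlgebraic ℚ (lam j))
    (hγ : ∀ a, IsAlgebraic ℚ (γ a))
    (h0 : IsAlgebraic ℚ (∑ j, lam j * (σ * zeta L (w j) + r * w j) +
      (γ 0 * (σ * (2 * zeta L (L.ω₁ / 2)) + r * L.ω₁) +
        γ 1 * (σ * (2 * zeta L (L.ω₂ / 2)) + r * L.ω₂)))) : lam = 0 ∧ γ = 0 := by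
  have key := second_kind h2 h3 (Fin.append ![L.ω₁, L.ω₂] w) (by
      intro a
      refine Fin.addCases (fun i => ?_) (fun j => ?_) a
      · rw [Fin.append_left]
        fin_cases i
        · exact Or.inl L.ω₁_mem_lattice
        · exact Or.inl L.ω₂_mem_lattice
      · rw [Fin.append_right]
        exact Or.inr (hw j).2) (by
      intro α hα hs
      choose q hq using fun a => hL (α a) (hα a)
      have h4 : ∑ a, q a • Fin.append ![L.ω₁, L.ω₂] w a = 0 := by
        rw [← hs]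
        refine Finset.sum_congr rfl fun a _ => ?_
        rw [hq a, Rat.smul_def]
      have h5 := Fintype.linearIndependent_iff.1 hi q h4
      funext a
      rw [hq a, h5 a]
      simp) σ r hσ hr hσr (Fin.append γ lam) (by
      intro a
      refine Fin.addCases (fun i => ?_) (fun j => ?_) a
      · rw [Fin.append_left]
        exact hγ i
      · rw [Fin.append_right]
        exact hlam j) (by
      rw [Fin.sum_univ_add]
      simp only [Fin.append_left, Fin.append_right, Fin.sum_univ_two]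
      have h6 : ∀ j, zt L (w j) = zeta L (w j) := fun j => zt_of_notMem (hw j).1
      simp only [h6, Matrix.cons_val_zero, Matrix.cons_val_one, zt_of_mem L.ω₁_mem_lattice,
        zt_of_mem L.ω₂_mem_lattice, eta_half L.ω₁_mem_lattice (half_notMem_one L),
        eta_half L.ω₂_mem_lattice (half_notMem_two L)]
      rw [add_comm]
      exact h0)
  constructor
  · funext j
    have := congrFun key (Fin.natAdd 2 j)
    rwa [Fin.append_right] at this
  · funext i
    have := congrFun key (Fin.castAdd ρ i)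
    rwa [Fin.append_left] at this

/-- linear forms in logarithms -/
theorem bak_of {m : ℕ} {b : Fin m → ℂ} (hb : ∀ i, IsAlgebraic ℚ (Complex.exp (b i)))
    (hi : LinearIndependent ℚ (Fin.cons (2 * Real.pi * Complex.I) b : Fin (m + 1) → ℂ))
    (μ : Fin m → ℂ) (ν : ℂ) (hμ : ∀ i, IsAlgebraic ℚ (μ i)) (hν : IsAlgebraic ℚ ν)
    (h0 : IsAlgebraic ℚ (∑ i, μ i * b i + ν * (2 * Real.pi * Complex.I))) : μ = 0 ∧ ν = 0 := by
  have key := Pool.Agent.H335R2.baker_inhom (Fin.cons (2 * Real.pi * Complex.I) b : Fin (m + 1) → ℂ)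
    (by
      intro i
      refine Fin.cases ?_ (fun j => ?_) i
      · rw [Fin.cons_zero, Complex.exp_two_pi_mul_I]
        exact isAlgebraic_one
      · rw [Fin.cons_succ]
        exact hb j) hi (-(∑ i, μ i * b i + ν * (2 * Real.pi * Complex.I))) h0.neg
    (Fin.cons ν μ : Fin (m + 1) → ℂ) (by
      intro i
      refine Fin.cases ?_ (fun j => ?_) i
      · exact hν
      · exact hμ j) (by
      rw [Fin.sum_univ_succ]
      simp only [Fin.cons_zero, Fin.cons_succ]
      ring)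
  constructor
  · funext j
    have := key.2 j.succ
    rwa [Fin.cons_succ] at this
  · have := key.2 0
    rwa [Fin.cons_zero] at this

theorem notMem_of_indep {ρ : ℕ} {w : Fin ρ → ℂ}
    (hi : LinearIndependent ℚ (Fin.append ![L.ω₁, L.ω₂] w)) (j : Fin ρ) : w j ∉ L.lattice := by
  intro h
  rw [PeriodPair.mem_lattice] at h
  obtain ⟨a, b, hab⟩ := h
  have h1 := Fintype.linearIndependent_iff.1 hi
    (Fin.append ![(a : ℚ), (b : ℚ)] (-(Pi.single j 1))) (by
      rw [Fin.sum_univ_add]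
      simp only [Fin.append_left, Fin.append_right, Fin.sum_univ_two]
      simp only [Matrix.cons_val_zero, Matrix.cons_val_one, Rat.smul_def, Pi.neg_apply]
      have h2 : ∑ i, ((-(Pi.single j (1 : ℚ) : Fin ρ → ℚ) i : ℚ) : ℂ) * w i = - w j := by
        rw [Finset.sum_eq_single j]
        · simp
        · intro i _ hij
          simp [Pi.single_eq_of_ne hij]
        · simp
      rw [h2]
      push_cast
      linear_combination hab) (Fin.natAdd 2 j)
  rw [Fin.append_right] at h1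
  simp at h1

theorem sit {ρ m : ℕ} {I : Type} [Fintype I] [DecidableEq I] {P Q : I → Fin ρ}
    (h2 : IsAlgebraic ℚ L.g₂) (h3 : IsAlgebraic ℚ L.g₃)
    (hL : ∀ β ∈ kL L, ∃ q : ℚ, β = q) {w : Fin ρ → ℂ}
    (hw : ∀ j, IsAlgebraic ℚ (℘[L] (w j)))
    (hi : LinearIndependent ℚ (Fin.append ![L.ω₁, L.ω₂] w))
    {b : Fin m → ℂ} (hb : ∀ i, IsAlgebraic ℚ (Complex.exp (b i)))
    (hbi : LinearIndependent ℚ (Fin.cons (2 * Real.pi * Complex.I) b : Fin (m + 1) → ℂ))
    (hPQ : ∀ e e' : I, (P e = P e' ∧ Q e = Q e') ∨ (P e = Q e' ∧ Q e = P e') → e = e')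
    (s : I → ℂ) {n : ℤ} (hn : n ≠ 0)
    (hleg : L.ω₁ * (2 * zeta L (L.ω₂ / 2)) - 2 * zeta L (L.ω₁ / 2) * L.ω₂ =
      n * (2 * Real.pi * Complex.I))
    {T : Set (Matrix (BB ρ I m) (BB ρ I m) ℂ)} (hT : Pool.Agent.TH127.PT.IsSubtorsor QB T)
    (hc : mat P Q !![L.ω₁, 2 * zeta L (L.ω₁ / 2); L.ω₂, 2 * zeta L (L.ω₂ / 2)]
      (2 * Real.pi * Complex.I) (fun j => ![w j, zeta L (w j)]) s b ∈ T) :
    Sit QB P Q (n : ℂ) T !![L.ω₁, 2 * zeta L (L.ω₁ / 2); L.ω₂, 2 * zeta L (L.ω₂ / 2)]
      (2 * Real.pi * Complex.I) (fun j => ![w j, zeta L (w j)]) s b where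
  hK _ := mem_QB
  hT := hT
  k0 := by exact_mod_cast hn
  kK := intCast_mem _ _
  τK := by
    intro h
    rw [mem_QB] at h
    have h1 := (bak_of hb hbi 0 1 (fun _ => isAlgebraic_zero) isAlgebraic_one (by
      simpa using h)).2
    exact one_ne_zero h1
  det := by
    rw [← hleg]
    simp
  mem := hc
  ell := by
    intro σ r hσ hr hσr lam γ hlam hγ h0
    refine ell_of h2 h3 hL (fun j => ⟨notMem_of_indep hi j, hw j⟩) hi σ r (mem_QB.1 hσ)
      (mem_QB.1 hr) hσr lam γ (fun j => mem_QB.1 (hlam j)) (fun a => mem_QB.1 (hγ a)) ?_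
    rw [mem_QB] at h0
    simpa [Fin.sum_univ_two] using h0
  bak := by
    intro μ ν hμ hν h0
    exact bak_of hb hbi μ ν (fun i => mem_QB.1 (hμ i)) (mem_QB.1 hν) (mem_QB.1 h0)
  inj := hPQ

end

end Pool.Agent.U725.OM
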