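import Pool.Agent.U725.OM.Grp

/-!
# The torsor
-/

set_option autoImplicit false
set_option linter.unusedSectionVars false

open Matrix

namespace Pool.Agent.U725.OM

variable {ρ m : ℕ} {I : Type} [Fintype I] [DecidableEq I]

/-- the matrices, over any ring -/
def matR {R : Type} [CommRing R] (P Q : I → Fin ρ) (X : Matrix (Fin 2) (Fin 2) R) (l : R)
    (Y : Fin ρ → Fin 2 → R) (t : I → R) (z : Fin m → R) :
    Matrix (BB ρ I m) (BB ρ I m) R :=
  fromBlocks X 0 0 (fromBlocks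
    (blockDiagonal fun j => !![X 0 0, X 0 1, 0; X 1 0, X 1 1, 0; Y j 0, Y j 1, 1]) 0 0
    (fromBlocks (blockDiagonal fun e => !![l, 0, 0, 0;
      X 0 1 * Y (Q e) 0 - X 0 0 * Y (Q e) 1, X 0 0, X 0 1, 0;
      X 1 1 * Y (Q e) 0 - X 1 0 * Y (Q e) 1, X 1 0, X 1 1, 0;
      t e, Y (P e) 0, Y (P e) 1, 1]) 0 0
    (blockDiagonal fun i => !![l, 0; z i, 1])))

theorem matR_map {R S : Type} [CommRing R] [CommRing S] (f : R →+* S) (P Q : I → Fin ρ)
    (X : Matrix (Fin 2) (Fin 2) R) (l : R)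
    (Y : Fin ρ → Fin 2 → R) (t : I → R) (z : Fin m → R) :
    (matR P Q X l Y t z).map f = matR P Q (X.map f) (f l) (fun j c => f (Y j c))
      (fun e => f (t e)) (fun i => f (z i)) := by
  have h1 : (blockDiagonal fun j => !![X 0 0, X 0 1, 0; X 1 0, X 1 1, 0; Y j 0, Y j 1, 1]).map f =
      blockDiagonal fun j => !![(X.map f) 0 0, (X.map f) 0 1, 0; (X.map f) 1 0, (X.map f) 1 1, 0;
        f (Y j 0), f (Y j 1), 1] := by
    rw [blockDiagonal_map _ _ (map_zero f)]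
    congr 1
    funext j
    ext a b
    fin_cases a <;> fin_cases b <;> simp
  have h2 : (blockDiagonal fun e => !![l, 0, 0, 0;
      X 0 1 * Y (Q e) 0 - X 0 0 * Y (Q e) 1, X 0 0, X 0 1, 0;
      X 1 1 * Y (Q e) 0 - X 1 0 * Y (Q e) 1, X 1 0, X 1 1, 0;
      t e, Y (P e) 0, Y (P e) 1, 1]).map f = blockDiagonal fun e => !![f l, 0, 0, 0;
      (X.map f) 0 1 * f (Y (Q e) 0) - (X.map f) 0 0 * f (Y (Q e) 1), (X.map f) 0 0,
        (X.map f) 0 1, 0;
      (X.map f) 1 1 * f (Y (Q e) 0) - (X.map f) 1 0 * f (Y (Q e) 1), (X.map f) 1 0,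
        (X.map f) 1 1, 0;
      f (t e), f (Y (P e) 0), f (Y (P e) 1), 1] := by
    rw [blockDiagonal_map _ _ (map_zero f)]
    congr 1
    funext j
    ext a b
    fin_cases a <;> fin_cases b <;> simp
  have h3 : (blockDiagonal fun i => !![l, 0; z i, 1]).map f =
      blockDiagonal fun i => !![f l, 0; f (z i), 1] := by
    rw [blockDiagonal_map _ _ (map_zero f)]
    congr 1
    funext j
    ext a b
    fin_cases a <;> fin_cases b <;> simp
  unfold matR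
  simp only [fromBlocks_map, Matrix.map_zero f (map_zero f), h1, h2, h3]

theorem matR_eq (P Q : I → Fin ρ) (X : M2) (l : ℂ) (Y : Fin ρ → Fin 2 → ℂ) (t : I → ℂ)
    (z : Fin m → ℂ) : matR P Q X l Y t z = mat P Q X l Y t z := rfl

variable (P Q : I → Fin ρ) (k : ℂ)

/-- the torsor -/
def Tor (ρ m : ℕ) (I : Type) [Fintype I] [DecidableEq I] (P Q : I → Fin ρ) (k : ℂ) :
    Set (Matrix (BB ρ I m) (BB ρ I m) ℂ) :=
  {x | ∃ X l Y t z, X.det ≠ 0 ∧ X 0 0 * X 1 1 - X 0 1 * X 1 0 = k * l ∧ x = mat P Q X l Y t z}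

theorem mat_mul (X H : M2) (l : ℂ) (Y V : Fin ρ → Fin 2 → ℂ) (t s : I → ℂ) (z r : Fin m → ℂ) :
    mat P Q X l Y t z * mat P Q H (H 0 0 * H 1 1 - H 0 1 * H 1 0) V s r =
      mat P Q (X * H) (l * (H 0 0 * H 1 1 - H 0 1 * H 1 0))
        (fun j c => Y j 0 * H 0 c + Y j 1 * H 1 c + V j c)
        (fun e => t e * (H 0 0 * H 1 1 - H 0 1 * H 1 0) +
          (Y (P e) 0 * (H 0 1 * V (Q e) 0 - H 0 0 * V (Q e) 1) +
            Y (P e) 1 * (H 1 1 * V (Q e) 0 - H 1 0 * V (Q e) 1)) + s e)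
        (fun i => z i * (H 0 0 * H 1 1 - H 0 1 * H 1 0) + r i) := by
  have hA : ∀ a b, (X * H) a b = X a 0 * H 0 b + X a 1 * H 1 b := fun a b => by
    rw [Matrix.mul_apply, Fin.sum_univ_two]
  unfold mat
  rw [bd_mul]
  simp only [b3_mul, b4_mul, b2_mul, hA]
  congr 1
  · funext e
    congr 1 <;> ring
  · funext e
    congr 1 <;> ring
  · funext e
    congr 1 <;> ring

theorem mat_one : mat P Q (1 : M2) 1 0 0 (0 : Fin m → ℂ) = 1 := by
  rw [← one_eq]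
  unfold mat
  simp

theorem mat_unit_scalar (c : ℂ) (hc : c ≠ 0) :
    mat P Q (1 : M2) c 0 0 (0 : Fin m → ℂ) * mat P Q (1 : M2) c⁻¹ 0 0 (0 : Fin m → ℂ) = 1 := by
  rw [← one_eq]
  unfold mat
  rw [bd_mul]
  simp only [b3_mul, b4_mul, b2_mul]
  simp [hc]

/-- solving `y h = z` -/
theorem exists_h {k : ℂ} (hk : k ≠ 0) {y z : Matrix (BB ρ I m) (BB ρ I m) ℂ}
    (hy : y ∈ Tor ρ m I P Q k) (hz : z ∈ Tor ρ m I P Q k) :
    ∃ H V s r, H.det ≠ 0 ∧ y * mat P Q H (H 0 0 * H 1 1 - H 0 1 * H 1 0) V s r = z := by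
  obtain ⟨X, l, Y, t, w, h1, h2, rfl⟩ := hy
  obtain ⟨X', l', Y', t', w', h1', h2', rfl⟩ := hz
  have hX : IsUnit X.det := isUnit_iff_ne_zero.2 h1
  set H := X⁻¹ * X' with hH
  have hXH : X * H = X' := by
    rw [hH, ← Matrix.mul_assoc, Matrix.mul_nonsing_inv _ hX, Matrix.one_mul]
  have hdet : X.det * H.det = X'.det := by rw [← Matrix.det_mul, hXH]
  have hH0 : H.det ≠ 0 := by
    intro h0
    rw [h0, mul_zero] at hdet
    exact h1' hdet.symm
  have hl : l * (H 0 0 * H 1 1 - H 0 1 * H 1 0) = l' := by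
    apply mul_left_cancel₀ hk
    rw [← h2', ← mul_assoc, ← h2, ← Matrix.det_fin_two, ← Matrix.det_fin_two,
      ← Matrix.det_fin_two, hdet]
  set V : Fin ρ → Fin 2 → ℂ := fun j c => Y' j c - (Y j 0 * H 0 c + Y j 1 * H 1 c) with hV
  refine ⟨H, V, fun e => t' e - (t e * (H 0 0 * H 1 1 - H 0 1 * H 1 0) +
          (Y (P e) 0 * (H 0 1 * V (Q e) 0 - H 0 0 * V (Q e) 1) +
            Y (P e) 1 * (H 1 1 * V (Q e) 0 - H 1 0 * V (Q e) 1))),
    fun i => w' i - w i * (H 0 0 * H 1 1 - H 0 1 * H 1 0), hH0, ?_⟩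
  rw [mat_mul, hXH, hl]
  congr 1
  · funext j c
    rw [hV]
    ring
  · funext e
    ring
  · funext i
    ring

theorem mul_mem {k : ℂ} {x : Matrix (BB ρ I m) (BB ρ I m) ℂ}
    (hx : x ∈ Tor ρ m I P Q k) {H : M2} (hH : H.det ≠ 0) (V : Fin ρ → Fin 2 → ℂ) (s : I → ℂ)
    (r : Fin m → ℂ) :
    x * mat P Q H (H 0 0 * H 1 1 - H 0 1 * H 1 0) V s r ∈ Tor ρ m I P Q k := by
  obtain ⟨X, l, Y, t, w, h1, h2, rfl⟩ := hx
  refine ⟨_, _, _, _, _, ?_, ?_, mat_mul P Q X H l Y V t s w r⟩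
  · rw [Matrix.det_mul]
    exact mul_ne_zero h1 hH
  · rw [← Matrix.det_fin_two, Matrix.det_mul, Matrix.det_fin_two X, h2, Matrix.det_fin_two H]
    ring

theorem Tor_unit {k : ℂ} (hk : k ≠ 0) {x : Matrix (BB ρ I m) (BB ρ I m) ℂ}
    (hx : x ∈ Tor ρ m I P Q k) : IsUnit x := by
  -- a standard point
  have h0 : mat P Q !![k, 0; 0, 1] 1 0 0 (0 : Fin m → ℂ) ∈ Tor ρ m I P Q k := by
    refine ⟨_, _, _, _, _, ?_, ?_, rfl⟩
    · rw [Matrix.det_fin_two]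
      simpa using hk
    · simp
  obtain ⟨H, V, s, r, hH, h1⟩ := exists_h P Q hk hx h0
  have h2 : ∃ y, mat P Q !![k, 0; 0, 1] 1 0 0 (0 : Fin m → ℂ) * y = 1 := by
    have h3 := mat_mul P Q !![k, 0; 0, 1] !![k⁻¹, 0; 0, 1] 1 0 0 0 0 (0 : Fin m → ℂ) 0
    have h4 : (!![k, 0; 0, 1] : M2) * !![k⁻¹, 0; 0, 1] = 1 := by
      ext a b
      fin_cases a <;> fin_cases b <;> simp [hk]
    rw [h4] at h3
    refine ⟨mat P Q !![k⁻¹, 0; 0, 1] ((!![k⁻¹, 0; 0, 1] : M2) 0 0 * (!![k⁻¹, 0; 0, 1] : M2) 1 1 -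
      (!![k⁻¹, 0; 0, 1] : M2) 0 1 * (!![k⁻¹, 0; 0, 1] : M2) 1 0) 0 0 0 *
      mat P Q (1 : M2) (k⁻¹)⁻¹ 0 0 (0 : Fin m → ℂ), ?_⟩
    rw [← Matrix.mul_assoc, h3, ← mat_unit_scalar P Q k⁻¹ (inv_ne_zero hk)]
    congr 1
    congr 1
    · simp
    · funext j c
      simp
    · funext e
      simp
    · funext i
      simp
  obtain ⟨y, hy⟩ := h2
  refine IsUnit.of_mul_eq_one (mat P Q H (H 0 0 * H 1 1 - H 0 1 * H 1 0) V s r * y) ?_
  rw [← Matrix.mul_assoc, h1, hy]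

/-! ### Equations -/

/-- the coordinates of a matrix -/
def hat {R : Type} [CommRing R] (P Q : I → Fin ρ) (k' : R)
    (x : Matrix (BB ρ I m) (BB ρ I m) R) : Matrix (BB ρ I m) (BB ρ I m) R :=
  matR P Q (Matrix.of fun a c => x (Sum.inl a) (Sum.inl c))
    (k' * (x (Sum.inl 0) (Sum.inl 0) * x (Sum.inl 1) (Sum.inl 1) -
      x (Sum.inl 0) (Sum.inl 1) * x (Sum.inl 1) (Sum.inl 0)))
    (fun j => ![x (Sum.inr (Sum.inl (2, j))) (Sum.inr (Sum.inl (0, j))),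
      x (Sum.inr (Sum.inl (2, j))) (Sum.inr (Sum.inl (1, j)))])
    (fun e => x (Sum.inr (Sum.inr (Sum.inl (3, e)))) (Sum.inr (Sum.inr (Sum.inl (0, e)))))
    (fun i => x (Sum.inr (Sum.inr (Sum.inr (1, i)))) (Sum.inr (Sum.inr (Sum.inr (0, i)))))

theorem hat_map {R S : Type} [CommRing R] [CommRing S] (f : R →+* S) (k' : R)
    (x : Matrix (BB ρ I m) (BB ρ I m) R) : (hat P Q k' x).map f = hat P Q (f k') (x.map f) := by
  unfold hat
  rw [matR_map]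
  congr 1
  · simp
  · funext j c
    fin_cases c <;> simp

theorem hat_eq {k : ℂ} (hk : k ≠ 0) {x : Matrix (BB ρ I m) (BB ρ I m) ℂ}
    (hx : x ∈ Tor ρ m I P Q k) : hat P Q k⁻¹ x = x := by
  obtain ⟨X, l, Y, t, w, h1, h2, rfl⟩ := hx
  rw [← matR_eq]
  unfold hat
  have e1 : (Matrix.of fun a c => matR P Q X l Y t w (Sum.inl a) (Sum.inl c)) = X := by
    ext a c
    simp [matR]
  have e2 : (fun j => ![matR P Q X l Y t w (Sum.inr (Sum.inl (2, j))) (Sum.inr (Sum.inl (0, j))),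
      matR P Q X l Y t w (Sum.inr (Sum.inl (2, j))) (Sum.inr (Sum.inl (1, j)))]) = Y := by
    funext j c
    fin_cases c <;> simp [matR]
  have e3 : (fun e => matR P Q X l Y t w (Sum.inr (Sum.inr (Sum.inl (3, e))))
      (Sum.inr (Sum.inr (Sum.inl (0, e))))) = t := by
    funext e
    simp [matR]
  have e4 : (fun i => matR P Q X l Y t w (Sum.inr (Sum.inr (Sum.inr (1, i))))
      (Sum.inr (Sum.inr (Sum.inr (0, i))))) = w := by
    funext e
    simp [matR]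
  have e5 : k⁻¹ * (matR P Q X l Y t w (Sum.inl 0) (Sum.inl 0) *
      matR P Q X l Y t w (Sum.inl 1) (Sum.inl 1) -
      matR P Q X l Y t w (Sum.inl 0) (Sum.inl 1) *
      matR P Q X l Y t w (Sum.inl 1) (Sum.inl 0)) = l := by
    have : matR P Q X l Y t w (Sum.inl 0) (Sum.inl 0) *
      matR P Q X l Y t w (Sum.inl 1) (Sum.inl 1) -
      matR P Q X l Y t w (Sum.inl 0) (Sum.inl 1) *
      matR P Q X l Y t w (Sum.inl 1) (Sum.inl 0) = X 0 0 * X 1 1 - X 0 1 * X 1 0 := by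
      simp [matR]
    rw [this, h2, ← mul_assoc, inv_mul_cancel₀ hk, one_mul]
  rw [e1, e2, e3, e4, e5]

theorem mem_Tor {k : ℂ} (hk : k ≠ 0) {x : Matrix (BB ρ I m) (BB ρ I m) ℂ} (hu : IsUnit x)
    (hx : hat P Q k⁻¹ x = x) : x ∈ Tor ρ m I P Q k := by
  have h1 := hx
  unfold hat at h1
  refine ⟨_, _, _, _, _, ?_, ?_, h1.symm⟩
  · intro h0
    have h2 : x.det = 0 := by
      rw [← h1]
      unfold matR
      rw [Matrix.det_fromBlocks_zero₁₂, h0, zero_mul]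
    rw [Matrix.isUnit_iff_isUnit_det, h2] at hu
    exact not_isUnit_zero hu
  · rw [← mul_assoc, mul_inv_cancel₀ hk, one_mul]
    rfl

/-- the torsor is defined over every field that contains the constant -/
theorem Tor_algebraic {K : Subfield ℂ} {k : ℂ} (hk : k ≠ 0) (hkK : k ∈ K) :
    ∃ J : Set (MvPolynomial (BB ρ I m × BB ρ I m) K), ∀ x : Matrix (BB ρ I m) (BB ρ I m) ℂ,
      x ∈ Tor ρ m I P Q k ↔ IsUnit x ∧
        ∀ p ∈ J, MvPolynomial.eval (fun b => x b.1 b.2) (MvPolynomial.map (algebraMap K ℂ) p) = 0 := by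
  set gen : Matrix (BB ρ I m) (BB ρ I m) (MvPolynomial (BB ρ I m × BB ρ I m) K) :=
    Matrix.of fun b b' => MvPolynomial.X (b, b') with hgen
  set kk : MvPolynomial (BB ρ I m × BB ρ I m) K := MvPolynomial.C (⟨k, hkK⟩ : K)⁻¹ with hkk
  refine ⟨Set.range fun b : BB ρ I m × BB ρ I m => gen b.1 b.2 - hat P Q kk gen b.1 b.2,
    fun x => ?_⟩
  set f : MvPolynomial (BB ρ I m × BB ρ I m) K →+* ℂ :=
    (MvPolynomial.eval (fun b : BB ρ I m × BB ρ I m => x b.1 b.2)).comp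
      (MvPolynomial.map (algebraMap K ℂ)) with hf
  have hfx : gen.map f = x := by
    ext b b'
    simp [hgen, hf]
  have hfk : f kk = k⁻¹ := by
    simp only [hf, hkk, RingHom.comp_apply, MvPolynomial.map_C, MvPolynomial.eval_C, map_inv₀]
    rfl
  have hhat : (hat P Q kk gen).map f = hat P Q k⁻¹ x := by
    rw [hat_map, hfx, hfk]
  have key : (∀ p ∈ Set.range fun b : BB ρ I m × BB ρ I m => gen b.1 b.2 - hat P Q kk gen b.1 b.2,
      MvPolynomial.eval (fun b => x b.1 b.2) (MvPolynomial.map (algebraMap K ℂ) p) = 0) ↔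
      hat P Q k⁻¹ x = x := by
    rw [← hhat]
    constructor
    · intro h
      ext b b'
      have h1 := h _ ⟨(b, b'), rfl⟩
      have h2 : f (gen b b' - hat P Q kk gen b b') = 0 := h1
      rw [map_sub, sub_eq_zero] at h2
      rw [Matrix.map_apply, ← h2, ← Matrix.map_apply (f := f), hfx]
    · rintro h _ ⟨⟨b, b'⟩, rfl⟩
      change f (gen b b' - hat P Q kk gen b b') = 0
      rw [map_sub, sub_eq_zero, ← Matrix.map_apply (f := f), ← Matrix.map_apply (f := f), hfx, h]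
  rw [key]
  exact ⟨fun h => ⟨Tor_unit P Q hk h, hat_eq P Q hk h⟩, fun h => mem_Tor P Q hk h.1 h.2⟩

theorem Tor_torsor {k : ℂ} (hk : k ≠ 0) : ∀ x ∈ Tor ρ m I P Q k, ∀ y ∈ Tor ρ m I P Q k,
    ∀ z ∈ Tor ρ m I P Q k, x * y⁻¹ * z ∈ Tor ρ m I P Q k := by
  intro x hx y hy z hz
  obtain ⟨H, V, s, r, hH, h1⟩ := exists_h P Q hk hy hz
  rw [← h1, Matrix.mul_assoc, ← Matrix.mul_assoc y⁻¹, Matrix.nonsing_inv_mul _
    ((Matrix.isUnit_iff_isUnit_det y).1 (Tor_unit P Q hk hy)), Matrix.one_mul]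
  exact mul_mem P Q hx hH V s r

end Pool.Agent.U725.OM
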