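import Pool.Agent.U725.OM.Main
import Pool.Agent.H135R2.VS.Der

/-!
# The Lie algebra of a subtorsor through the period point is everything
-/

set_option autoImplicit false
set_option linter.unusedSectionVars false

open Matrix

namespace Pool.Agent.U725.OM

open Pool.Agent.TH127.PT Pool.Agent.TH119.MX Pool.Agent.TH119.DR Pool.Agent.Y123.ST

variable {ρ m : ℕ} {I : Type} [Fintype I] [DecidableEq I]
variable {P Q : I → Fin ρ} {k : ℂ} {K : Subfield ℂ}
  {T : Set (Matrix (BB ρ I m) (BB ρ I m) ℂ)}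

theorem der_of_mem (D : Derivation K ℂ ℂ) {x : ℂ} (hx : x ∈ K) : D x = 0 :=
  D.map_algebraMap (⟨x, hx⟩ : K)

/-- a number which is killed by all derivations over `K` -/
theorem mem_of_der (hK : ∀ x, x ∈ K ↔ IsAlgebraic ℚ x) {z : ℂ}
    (h : ∀ D : Derivation K ℂ ℂ, D z = 0) : z ∈ K := by
  by_contra hz
  have hz' : Transcendental ℚ z := fun h1 => hz ((hK z).2 h1)
  have _ : Algebra.IsAlgebraic ℚ K := ⟨fun x => by
    have h1 := (hK x).1 x.2
    exact (isAlgebraic_algebraMap_iff (A := ℂ) (algebraMap K ℂ).injective).1 h1⟩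
  have hzK : Transcendental K z := by
    intro h
    exact hz' (h.restrictScalars ℚ)
  have hind : AlgebraicIndependent K (fun _ : Unit => z) :=
    (algebraicIndependent_unique_type_iff).2 hzK
  obtain ⟨D, hD⟩ := Pool.Agent.H135R2.VS.exists_der hind (fun _ => (1 : ℂ))
  have h1 := hD ()
  rw [h D] at h1
  exact zero_ne_one h1

theorem exists_der (hK : ∀ x, x ∈ K ↔ IsAlgebraic ℚ x) {z : ℂ} (hz : z ∉ K) :
    ∃ D : Derivation K ℂ ℂ, D z ≠ 0 := by
  by_contra hcon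
  push Not at hcon
  exact hz (mem_of_der hK hcon)

/-- proportional derivatives -/
theorem ratio_mem (hK : ∀ x, x ∈ K ↔ IsAlgebraic ℚ x) {x y : ℂ} (hy : y ≠ 0)
    (h : ∀ D : Derivation K ℂ ℂ, D x * y = x * D y) : ∃ β ∈ K, x = β * y := by
  refine ⟨x / y, mem_of_der hK fun D => ?_, (div_mul_cancel₀ x hy).symm⟩
  have h1 : D x = D (x / y * y) := by rw [div_mul_cancel₀ x hy]
  rw [Derivation.leibniz, smul_eq_mul, smul_eq_mul] at h1
  have h2 := h D
  rw [h1] at h2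
  have h3 : y * y * D (x / y) = 0 := by
    have h4 : x = x / y * y := (div_mul_cancel₀ x hy).symm
    calc y * y * D (x / y) = (x / y * D y + y * D (x / y)) * y - (x / y * y) * D y := by ring
      _ = 0 := by rw [h2, ← h4, sub_self]
  exact (mul_eq_zero.1 h3).resolve_left (mul_ne_zero hy hy)

/-- rational vectors -/
theorem exists_rat {B : Type*} [Fintype B] (W : Submodule ℂ (B → ℂ))
    (hW : ∀ σ : ℂ ≃+* ℂ, (∀ x ∈ K, σ x = x) → ∀ v ∈ W, (fun i => σ (v i)) ∈ W)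
    (f : (B → ℂ) →ₗ[ℂ] ℂ) (hf : ∃ v ∈ W, f v ≠ 0) : ∃ w ∈ W, (∀ a, w a ∈ K) ∧ f w ≠ 0 := by
  by_contra hcon
  push Not at hcon
  obtain ⟨v, hv, hfv⟩ := hf
  have h1 := defOver_of_aut W hW hv
  apply hfv
  induction h1 using Submodule.span_induction with
  | mem w hw => exact hcon w hw.1 hw.2
  | zero => exact map_zero f
  | add v w hv' hw' hv hw =>
    have e1 : ∀ x ∈ Submodule.span ℂ {w | w ∈ W ∧ ∀ a, w a ∈ K}, f x = 0 := by
      intro x hx
      have : Submodule.span ℂ {w | w ∈ W ∧ ∀ a, w a ∈ K} ≤ LinearMap.ker f := by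
        rw [Submodule.span_le]
        rintro y ⟨hy1, hy2⟩
        exact hcon y hy1 hy2
      exact this hx
    rw [map_add, e1 v hv', e1 w hw', add_zero]
  | smul a v hv' hv =>
    have e1 : ∀ x ∈ Submodule.span ℂ {w | w ∈ W ∧ ∀ a, w a ∈ K}, f x = 0 := by
      intro x hx
      have : Submodule.span ℂ {w | w ∈ W ∧ ∀ a, w a ∈ K} ≤ LinearMap.ker f := by
        rw [Submodule.span_le]
        rintro y ⟨hy1, hy2⟩
        exact hcon y hy1 hy2
      exact this hx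
    rw [map_smul, e1 v hv', smul_zero]

theorem mem_of_fixed {z : ℂ} (h : ∀ σ : ℂ ≃+* ℂ, (∀ x ∈ K, σ x = x) → σ z = z) : z ∈ K := by
  by_contra hz
  obtain ⟨σ, h1, h2⟩ := exists_move hz
  exact h2 (h σ h1)

/-- The situation: a subtorsor, and the arithmetic information about the periods. -/
structure Sit (K : Subfield ℂ) (P Q : I → Fin ρ) (k : ℂ)
    (T : Set (Matrix (BB ρ I m) (BB ρ I m) ℂ)) (Ω : M2) (τ : ℂ) (U : Fin ρ → Fin 2 → ℂ)
    (s : I → ℂ) (b : Fin m → ℂ) : Prop where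
  hK : ∀ x, x ∈ K ↔ IsAlgebraic ℚ x
  hT : IsSubtorsor K T
  k0 : k ≠ 0
  kK : k ∈ K
  τK : τ ∉ K
  det : Ω 0 0 * Ω 1 1 - Ω 0 1 * Ω 1 0 = k * τ
  mem : mat P Q Ω τ U s b ∈ T
  /-- linear forms in periods and integrals of one differential of the second kind -/
  ell : ∀ σ r : ℂ, σ ∈ K → r ∈ K → (σ ≠ 0 ∨ r ≠ 0) → ∀ (lam : Fin ρ → ℂ) (γ : Fin 2 → ℂ),
    (∀ j, lam j ∈ K) → (∀ a, γ a ∈ K) →
    ∑ j, lam j * (σ * U j 1 + r * U j 0) + ∑ a, γ a * (σ * Ω a 1 + r * Ω a 0) ∈ K →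
    lam = 0 ∧ γ = 0
  /-- linear forms in logarithms -/
  bak : ∀ (μ : Fin m → ℂ) (ν : ℂ), (∀ i, μ i ∈ K) → ν ∈ K → ∑ i, μ i * b i + ν * τ ∈ K →
    μ = 0 ∧ ν = 0
  inj : ∀ e e' : I, (P e = P e' ∧ Q e = Q e') ∨ (P e = Q e' ∧ Q e = P e') → e = e'

section Sit

variable {Ω : M2} {τ : ℂ} {U : Fin ρ → Fin 2 → ℂ} {s : I → ℂ} {b : Fin m → ℂ}
  (h : Sit K P Q k T Ω τ U s b)

include h

theorem Sit.τ0 : τ ≠ 0 := fun h0 => h.τK (by rw [h0]; exact K.zero_mem)

theorem Sit.logd (D : Derivation K ℂ ℂ) :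
    ∃ (A : M2) (Y : Fin ρ → Fin 2 → ℂ) (t : I → ℂ) (z : Fin m → ℂ), InL P Q k T A Y t z ∧
      (∀ a c, A a 0 * Ω 0 c + A a 1 * Ω 1 c = D (Ω a c)) ∧
      (∀ j c, Y j 0 * Ω 0 c + Y j 1 * Ω 1 c = D (U j c)) ∧ (A 0 0 + A 1 1) * τ = D τ ∧
      ∀ i, z i * τ = D (b i) :=
  logder h.hT h.k0 h.τ0 h.det h.mem D (der_of_mem D h.kK)

/-- the projection of the Lie algebra -/
def Sit.proj (_ : Sit K P Q k T Ω τ U s b) : Submodule ℂ M2 where
  carrier := {A | ∃ Y t z, InL P Q k T A Y t z}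
  zero_mem' := ⟨0, 0, 0, InL.zero⟩
  add_mem' := by
    rintro A A' ⟨Y, t, z, h1⟩ ⟨Y', t', z', h2⟩
    exact ⟨_, _, _, h1.add h2⟩
  smul_mem' := by
    rintro c A ⟨Y, t, z, h1⟩
    exact ⟨_, _, _, h1.smul c⟩

/-- one linear form in the periods -/
theorem Sit.two (σ r : ℂ) (hσ : σ ∈ K) (hr : r ∈ K) (h0 : σ ≠ 0 ∨ r ≠ 0) (x y : ℂ) (hx : x ∈ K)
    (hy : y ∈ K) (hxy : x * (σ * Ω 0 1 + r * Ω 0 0) + y * (σ * Ω 1 1 + r * Ω 1 0) = 0) :
    x = 0 ∧ y = 0 := by
  have h1 := h.ell σ r hσ hr h0 0 ![x, y] (fun _ => K.zero_mem) (by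
    intro a
    fin_cases a
    · exact hx
    · exact hy) (by
    simp only [Pi.zero_apply, zero_mul, Finset.sum_const_zero, zero_add, Fin.sum_univ_two,
      Matrix.cons_val_zero, Matrix.cons_val_one, hxy]
    exact K.zero_mem)
  exact ⟨by simpa using congrFun h1.2 0, by simpa using congrFun h1.2 1⟩

theorem Sit.exists_nonscalar : ∃ A ∈ h.proj, ∀ c : ℂ, A ≠ c • (1 : M2) := by
  by_contra hcon
  push Not at hcon
  have h10 : Ω 1 0 ≠ 0 := by
    intro h0
    have := (h.two 0 1 K.zero_mem K.one_mem (Or.inr one_ne_zero) 0 1 K.zero_mem K.one_mem (by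
      rw [h0]; ring)).2
    exact one_ne_zero this
  obtain ⟨β, hβ, hβ'⟩ := ratio_mem h.hK (x := Ω 0 0) h10 (by
    intro D
    obtain ⟨A, Y, t, z, h1, h2, -⟩ := h.logd D
    obtain ⟨c, hc⟩ := hcon A ⟨Y, t, z, h1⟩
    rw [← h2, ← h2, hc]
    simp
    ring)
  have := (h.two 0 1 K.zero_mem K.one_mem (Or.inr one_ne_zero) 1 (-β) K.one_mem (K.neg_mem hβ) (by
    rw [hβ']; ring)).1
  exact one_ne_zero this

theorem Sit.proj_aut {σ : ℂ ≃+* ℂ} (hσ : ∀ x ∈ K, σ x = x) {A : M2} (hA : A ∈ h.proj) :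
    A.map σ ∈ h.proj := by
  obtain ⟨Y, t, z, h1⟩ := hA
  exact ⟨_, _, _, h1.aut h.hT hσ h.kK⟩

theorem Sit.exists_rat_nonscalar : ∃ A ∈ h.proj, (∀ a c, A a c ∈ K) ∧ ∀ c : ℂ, A ≠ c • (1 : M2) := by
  obtain ⟨A, hA, hAs⟩ := h.exists_nonscalar
  let W : Submodule ℂ (Fin 2 × Fin 2 → ℂ) :=
    { carrier := {w | um w ∈ h.proj}
      zero_mem' := by
        change um 0 ∈ h.proj
        rw [um_zero]
        exact Submodule.zero_mem _
      add_mem' := by
        intro v w hv hw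
        change um (v + w) ∈ h.proj
        rw [um_add]
        exact Submodule.add_mem _ hv hw
      smul_mem' := by
        intro c v hv
        change um (c • v) ∈ h.proj
        rw [um_smul]
        exact Submodule.smul_mem _ _ hv }
  have hW : ∀ σ : ℂ ≃+* ℂ, (∀ x ∈ K, σ x = x) → ∀ v ∈ W, (fun i => σ (v i)) ∈ W := by
    intro σ hσ v hv
    exact h.proj_aut hσ hv
  have hAW : fl A ∈ W := by
    change um (fl A) ∈ h.proj
    rw [um_fl]
    exact hA
  have key : ∀ f : (Fin 2 × Fin 2 → ℂ) →ₗ[ℂ] ℂ, f (fl A) ≠ 0 →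
      (∀ B : M2, (∃ c : ℂ, B = c • (1 : M2)) → f (fl B) = 0) →
      ∃ A ∈ h.proj, (∀ a c, A a c ∈ K) ∧ ∀ c : ℂ, A ≠ c • (1 : M2) := by
    intro f hf hf'
    obtain ⟨w, hw, hwK, hfw⟩ := exists_rat W hW f ⟨fl A, hAW, hf⟩
    refine ⟨um w, hw, fun a c => hwK (a, c), fun c hc => hfw ?_⟩
    have := hf' (um w) ⟨c, hc⟩
    rwa [fl_um] at this
  by_cases h01 : A 0 1 = 0
  · by_cases h10 : A 1 0 = 0
    · by_cases h00 : A 0 0 = A 1 1
      · exfalso
        apply hAs (A 0 0)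
        ext i j
        fin_cases i <;> fin_cases j <;> simp [h01, h10, h00]
      · refine key ((LinearMap.proj (0, 0) : (Fin 2 × Fin 2 → ℂ) →ₗ[ℂ] ℂ) - LinearMap.proj (1, 1)) ?_ ?_
        · simpa [fl, sub_eq_zero] using h00
        · rintro B ⟨c, rfl⟩
          simp [fl]
    · refine key (LinearMap.proj (1, 0)) ?_ ?_
      · simpa [fl] using h10
      · rintro B ⟨c, rfl⟩
        simp [fl]
  · refine key (LinearMap.proj (0, 1)) ?_ ?_
    · simpa [fl] using h01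
    · rintro B ⟨c, rfl⟩
      simp [fl]

/-- a rational eigenline -/
theorem Sit.no_line_rat {u : Fin 2 → ℂ} (hu : u ≠ 0) (huK : ∀ a, u a ∈ K)
    (hinv : ∀ A ∈ h.proj, ∃ c : ℂ, A *ᵥ u = c • u) : False := by
  have hne : u 1 ≠ 0 ∨ u 0 ≠ 0 := by
    by_contra hcon
    push Not at hcon
    apply hu
    funext i
    fin_cases i
    · exact hcon.2
    · exact hcon.1
  -- the derivatives of the combinations of the periods
  have hr : ∀ D : Derivation K ℂ ℂ, ∃ χ : ℂ, ∀ c : Fin 2,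
      D (u 1 * Ω 0 c - u 0 * Ω 1 c) = χ * (u 1 * Ω 0 c - u 0 * Ω 1 c) := by
    intro D
    obtain ⟨A, Y, t, z, h1, h2, -⟩ := h.logd D
    obtain ⟨c, hc⟩ := hinv A ⟨Y, t, z, h1⟩
    rw [mulVec_two] at hc
    have e0 : A 0 0 * u 0 + A 0 1 * u 1 = c * u 0 := by simpa using congrFun hc 0
    have e1 : A 1 0 * u 0 + A 1 1 * u 1 = c * u 1 := by simpa using congrFun hc 1
    refine ⟨A 0 0 + A 1 1 - c, fun d => ?_⟩
    rw [map_sub, Derivation.leibniz, Derivation.leibniz, der_of_mem D (huK 0),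
      der_of_mem D (huK 1), ← h2, ← h2]
    simp only [smul_eq_mul, mul_zero, add_zero]
    linear_combination (Ω 1 d) * e0 - Ω 0 d * e1
  by_cases h1 : u 1 * Ω 0 1 - u 0 * Ω 1 1 = 0
  · have h2 := h.two 1 0 K.one_mem K.zero_mem (Or.inl one_ne_zero) (u 1) (-u 0) (huK 1)
      (K.neg_mem (huK 0)) (by linear_combination h1)
    rcases hne with h3 | h3
    · exact h3 h2.1
    · exact h3 (neg_eq_zero.1 h2.2)
  · obtain ⟨β, hβ, hβ'⟩ := ratio_mem h.hK (x := u 1 * Ω 0 0 - u 0 * Ω 1 0) h1 (by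
      intro D
      obtain ⟨χ, hχ⟩ := hr D
      rw [hχ 0, hχ 1]
      ring)
    have h2 := h.two (-β) 1 (K.neg_mem hβ) K.one_mem (Or.inr one_ne_zero) (u 1) (-u 0) (huK 1)
      (K.neg_mem (huK 0)) (by linear_combination hβ')
    rcases hne with h3 | h3
    · exact h3 h2.1
    · exact h3 (neg_eq_zero.1 h2.2)

theorem Sit.no_line {u : Fin 2 → ℂ} (hu : u ≠ 0)
    (hinv : ∀ A ∈ h.proj, ∃ c : ℂ, A *ᵥ u = c • u) : False := by
  obtain ⟨A, hA, hAK, hAs⟩ := h.exists_rat_nonscalar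
  obtain ⟨c, hc⟩ := hinv A hA
  rw [mulVec_two] at hc
  have e0 : A 0 0 * u 0 + A 0 1 * u 1 = c * u 0 := by simpa using congrFun hc 0
  have e1 : A 1 0 * u 0 + A 1 1 * u 1 = c * u 1 := by simpa using congrFun hc 1
  -- the eigenvalue is algebraic
  have hcK : c ∈ K := by
    have hchar : c * c - (A 0 0 + A 1 1) * c + (A 0 0 * A 1 1 - A 0 1 * A 1 0) = 0 := by
      have f0 : (c * c - (A 0 0 + A 1 1) * c + (A 0 0 * A 1 1 - A 0 1 * A 1 0)) * u 0 = 0 := by
        linear_combination (A 1 1 - c) * e0 - A 0 1 * e1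
      have f1 : (c * c - (A 0 0 + A 1 1) * c + (A 0 0 * A 1 1 - A 0 1 * A 1 0)) * u 1 = 0 := by
        linear_combination (A 0 0 - c) * e1 - A 1 0 * e0
      by_cases hu0 : u 0 = 0
      · have hu1 : u 1 ≠ 0 := by
          intro hu1
          apply hu
          funext i
          fin_cases i
          · exact hu0
          · exact hu1
        exact (mul_eq_zero.1 f1).resolve_right hu1
      · exact (mul_eq_zero.1 f0).resolve_right hu0
    have hsq : (c + c - (A 0 0 + A 1 1)) ^ 2 ∈ K := by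
      have : (c + c - (A 0 0 + A 1 1)) ^ 2 =
          (A 0 0 + A 1 1) ^ 2 - 4 * (A 0 0 * A 1 1 - A 0 1 * A 1 0) := by
        linear_combination 4 * hchar
      rw [this]
      refine K.sub_mem (K.pow_mem (K.add_mem (hAK _ _) (hAK _ _)) _) (K.mul_mem ?_
        (K.sub_mem (K.mul_mem (hAK _ _) (hAK _ _)) (K.mul_mem (hAK _ _) (hAK _ _))))
      exact ofNat_mem K 4
    have h2 : c + c - (A 0 0 + A 1 1) ∈ K := by
      rw [h.hK] at hsq ⊢
      exact hsq.of_pow (by norm_num)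
    have h3 : c + c ∈ K := by
      have := K.add_mem h2 (K.add_mem (hAK 0 0) (hAK 1 1))
      rwa [sub_add_cancel] at this
    have h4 : c = (c + c) / 2 := by ring
    rw [h4]
    exact K.div_mem h3 (ofNat_mem K 2)
  have hne : A - c • (1 : M2) ≠ 0 := fun h1 => hAs c (sub_eq_zero.1 h1)
  obtain ⟨i, hi⟩ : ∃ i, (A - c • (1 : M2)) i ≠ 0 := by
    by_contra hcon
    push Not at hcon
    exact hne (funext hcon)
  set r := (A - c • (1 : M2)) i with hr
  have hrK : ∀ a, r a ∈ K := by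
    intro a
    rw [hr, Matrix.sub_apply, Matrix.smul_apply, smul_eq_mul, Matrix.one_apply]
    refine K.sub_mem (hAK _ _) (K.mul_mem hcK ?_)
    split_ifs
    · exact K.one_mem
    · exact K.zero_mem
  have hru : r 0 * u 0 + r 1 * u 1 = 0 := by
    rw [hr]
    fin_cases i
    · simp only [Fin.zero_eta, Matrix.sub_apply, Matrix.smul_apply, smul_eq_mul,
        Matrix.one_apply_eq, ne_eq, zero_ne_one, not_false_eq_true, Matrix.one_apply_ne, mul_zero,
        sub_zero, mul_one]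
      linear_combination e0
    · simp only [Fin.mk_one, Matrix.sub_apply, Matrix.smul_apply, smul_eq_mul,
        Matrix.one_apply_eq, ne_eq, one_ne_zero, not_false_eq_true, Matrix.one_apply_ne, mul_zero,
        sub_zero, mul_one]
      linear_combination e1
  have hu' : (![r 1, -r 0] : Fin 2 → ℂ) ≠ 0 := by
    intro h1
    apply hi
    funext a
    fin_cases a
    · simpa using congrFun h1 1
    · simpa using congrFun h1 0
  -- `u` is proportional to a rational vector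
  obtain ⟨d, hd⟩ := prop_of_row (r := r) (u := ![r 1, -r 0]) (v := u) hi hu' (by simp; ring) hru
  have hd0 : d ≠ 0 := by
    rintro rfl
    apply hu
    rw [hd, zero_smul]
  refine h.no_line_rat hu' (by
    intro a
    fin_cases a
    · exact hrK 1
    · exact K.neg_mem (hrK 0)) fun B hB => ?_
  obtain ⟨c', hc'⟩ := hinv B hB
  refine ⟨c', ?_⟩
  have h5 : (![r 1, -r 0] : Fin 2 → ℂ) = d⁻¹ • u := by
    rw [hd, smul_smul, inv_mul_cancel₀ hd0, one_smul]
  rw [h5, Matrix.mulVec_smul, hc', smul_comm]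

/-- Step A: the projection is everything. -/
theorem Sit.proj_all (A : M2) : ∃ Y t z, InL P Q k T A Y t z := by
  refine full h.proj ?_ ?_ ?_ A
  · rintro A ⟨Y, t, z, h1⟩ B ⟨Y', t', z', h2⟩
    exact ⟨_, _, _, h1.br h2⟩
  · intro u hu
    by_contra hcon
    push Not at hcon
    exact h.no_line hu hcon
  · obtain ⟨D, hD⟩ := exists_der h.hK h.τK
    obtain ⟨A, Y, t, z, h1, -, -, h4, -⟩ := h.logd D
    refine ⟨A, ⟨Y, t, z, h1⟩, fun h0 => hD ?_⟩
    rw [← h4, h0, zero_mul]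

end Sit

end Pool.Agent.U725.OM
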