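import Pool.Agent.U725.OM.Full2

/-!
# From the Lie algebra to the subtorsor
-/

set_option autoImplicit false
set_option linter.unusedSectionVars false

open Matrix

namespace Pool.Agent.U725.OM

open Pool.Agent.TH127.PT Pool.Agent.TH119.MX Pool.Agent.TH119.DR Pool.Agent.Y123.ST

variable {ρ m : ℕ} {I : Type} [Fintype I] [DecidableEq I]

/-- the action of `GL(2)` -/
def grp (ρ : ℕ) (I : Type) [Fintype I] [DecidableEq I] (m : ℕ) (g : M2) :
    Matrix (BB ρ I m) (BB ρ I m) ℂ :=
  bd g (fun _ => b3 (g 0 0) (g 0 1) (g 1 0) (g 1 1) 0 0 1)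
    (fun _ => b4 g.det 0 0 (g 0 0) (g 0 1) (g 1 0) (g 1 1) 0 0 0 1)
    (fun _ => b2 g.det 0 1)

theorem grp_mul (g g' : M2) : grp ρ I m g * grp ρ I m g' = grp ρ I m (g * g') := by
  have hA : ∀ a b, (g * g') a b = g a 0 * g' 0 b + g a 1 * g' 1 b := fun a b => by
    rw [Matrix.mul_apply, Fin.sum_univ_two]
  unfold grp
  rw [bd_mul]
  simp only [b3_mul, b4_mul, b2_mul, Matrix.det_mul, hA]
  congr 1
  · funext e
    congr 1 <;> ring
  · funext e
    congr 1 <;> ring
  · funext e
    congr 1 <;> ring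

variable (P Q : I → Fin ρ) (k : ℂ)

theorem grp_mul_mat (g X : M2) (l : ℂ) (Y : Fin ρ → Fin 2 → ℂ) (t : I → ℂ) (z : Fin m → ℂ) :
    grp ρ I m g * mat P Q X l Y t z = mat P Q (g * X) (g.det * l) Y t z := by
  have hA : ∀ a b, (g * X) a b = g a 0 * X 0 b + g a 1 * X 1 b := fun a b => by
    rw [Matrix.mul_apply, Fin.sum_univ_two]
  unfold grp mat
  rw [bd_mul]
  simp only [b3_mul, b4_mul, b2_mul, hA]
  congr 1
  · funext e
    congr 1 <;> ring
  · funext e
    congr 1 <;> ring
  · funext e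
    congr 1 <;> ring

theorem one_eq : bd (1 : M2) (fun _ : Fin ρ => b3 1 0 0 1 0 0 1)
    (fun _ : I => b4 1 0 0 1 0 0 1 0 0 0 1) (fun _ : Fin m => b2 1 0 1) = 1 := by
  rw [b3_one, b4_one, b2_one, bd_one]

theorem one_add_lie (s : ℂ) (A g : M2) (hg : ∀ a b, g a b = (1 : M2) a b + s * A a b)
    (hdet : g.det = 1 + s * (A 0 0 + A 1 1)) :
    1 + s • lie P Q k A 0 0 (0 : Fin m → ℂ) = grp ρ I m g := by
  rw [← one_eq, lie_smul]
  unfold lie grp
  rw [bd_add]
  simp only [b3_add, b4_add, b2_add]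
  congr 1
  · ext a b
    rw [hg]
    rfl
  · funext j
    congr 1 <;> simp [hg]
  · funext j
    congr 1 <;> simp [hg, hdet] <;> ring
  · funext j
    congr 1 <;> simp [hg, hdet] <;> ring

theorem one_sub_lie (s : ℂ) (A g : M2) (hg : ∀ a b, g a b = (1 : M2) a b + (s - 1) * A a b)
    (hdet : g.det = 1 + (s - 1) * (A 0 0 + A 1 1)) :
    (1 - lie P Q k A 0 0 (0 : Fin m → ℂ)) + s • lie P Q k A 0 0 (0 : Fin m → ℂ) =
      grp ρ I m g := by
  rw [← one_add_lie P Q k (s - 1) A g hg hdet, sub_smul, one_smul]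
  abel

/-- unipotent elements -/
theorem uni_mul_mat (X : M2) (l : ℂ) (hl : X 0 0 * X 1 1 - X 0 1 * X 1 0 = k * l)
    (Y U : Fin ρ → Fin 2 → ℂ) (t s : I → ℂ) (z b : Fin m → ℂ) :
    (1 + (1 : ℂ) • lie P Q k 0 Y t z) * mat P Q X l U s b =
      mat P Q X l (fun j c => U j c + (Y j 0 * X 0 c + Y j 1 * X 1 c))
        (fun e => s e + (t e * l + (Y (P e) 0 * (X 0 1 * U (Q e) 0 - X 0 0 * U (Q e) 1) +
            Y (P e) 1 * (X 1 1 * U (Q e) 0 - X 1 0 * U (Q e) 1))))
        (fun i => b i + z i * l) := by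
  rw [one_smul, Matrix.add_mul, Matrix.one_mul, lie_mul_mat P Q k 0 X l hl, Matrix.zero_mul]
  unfold mat
  rw [bd_add]
  simp only [b3_add, b4_add, b2_add, Matrix.zero_apply, add_zero, zero_mul, zero_sub, sub_zero,
    neg_zero, zero_add]
  congr 1
  funext e
  congr 1 <;> ring

variable {P Q k} {K : Subfield ℂ} {T : Set (Matrix (BB ρ I m) (BB ρ I m) ℂ)}
variable {Ω : M2} {τ : ℂ} {U : Fin ρ → Fin 2 → ℂ} {s : I → ℂ} {b : Fin m → ℂ}
  (h : Sit K P Q k T Ω τ U s b)

include h

theorem Sit.grp_stab (g : M2) (hg : g.det ≠ 0) : ∀ x ∈ T, grp ρ I m g * x ∈ T := by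
  have hmul : ∀ g g' : M2, (∀ x ∈ T, grp ρ I m g * x ∈ T) → (∀ x ∈ T, grp ρ I m g' * x ∈ T) →
      ∀ x ∈ T, grp ρ I m (g * g') * x ∈ T := by
    intro g g' h1 h2 x hx
    rw [← grp_mul, Matrix.mul_assoc]
    exact h1 _ (h2 _ hx)
  have hd0 : ∀ c : ℂ, c ≠ 0 → ∀ x ∈ T, grp ρ I m !![c, 0; 0, 1] * x ∈ T := by
    intro c hc x hx
    have hE : lie P Q k !![1, 0; 0, 0] 0 0 (0 : Fin m → ℂ) *
        lie P Q k !![1, 0; 0, 0] 0 0 (0 : Fin m → ℂ) = lie P Q k !![1, 0; 0, 0] 0 0 0 := by
      rw [lie_mul]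
      unfold lie
      congr 1
      · ext a b
        fin_cases a <;> fin_cases b <;> simp
      · funext j
        congr 1 <;> simp
      · funext j
        congr 1 <;> simp
      · funext j
        congr 1 <;> simp
    have h1 := exp_idem h.hT hE (h.all _ 0 0 0) hx hc
    rw [one_sub_lie P Q k c _ !![c, 0; 0, 1] (by
      intro a b
      fin_cases a <;> fin_cases b <;> simp) (by
      rw [Matrix.det_fin_two]
      simp)] at h1
    exact h1
  have hd1 : ∀ c : ℂ, c ≠ 0 → ∀ x ∈ T, grp ρ I m !![1, 0; 0, c] * x ∈ T := by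
    intro c hc x hx
    have hE : lie P Q k !![0, 0; 0, 1] 0 0 (0 : Fin m → ℂ) *
        lie P Q k !![0, 0; 0, 1] 0 0 (0 : Fin m → ℂ) = lie P Q k !![0, 0; 0, 1] 0 0 0 := by
      rw [lie_mul]
      unfold lie
      congr 1
      · ext a b
        fin_cases a <;> fin_cases b <;> simp
      · funext j
        congr 1 <;> simp
      · funext j
        congr 1 <;> simp
      · funext j
        congr 1 <;> simp
    have h1 := exp_idem h.hT hE (h.all _ 0 0 0) hx hc
    rw [one_sub_lie P Q k c _ !![1, 0; 0, c] (by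
      intro a b
      fin_cases a <;> fin_cases b <;> simp) (by
      rw [Matrix.det_fin_two]
      simp)] at h1
    exact h1
  refine Matrix.diagonal_transvection_induction_of_det_ne_zero
    (fun g => ∀ x ∈ T, grp ρ I m g * x ∈ T) g hg ?_ ?_ ?_
  · intro D hD
    rw [Matrix.det_diagonal, Fin.prod_univ_two] at hD
    have h1 : (Matrix.diagonal D : M2) = !![D 0, 0; 0, 1] * !![1, 0; 0, D 1] := by
      ext a b
      fin_cases a <;> fin_cases b <;> simp
    rw [h1]
    exact hmul _ _ (hd0 _ (left_ne_zero_of_mul hD)) (hd1 _ (right_ne_zero_of_mul hD))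
  · rintro ⟨i, j, hij, c⟩ x hx
    rw [Matrix.TransvectionStruct.toMatrix_mk]
    have hE : lie P Q k (Matrix.single i j 1) 0 0 (0 : Fin m → ℂ) *
        lie P Q k (Matrix.single i j 1) 0 0 (0 : Fin m → ℂ) = 0 := by
      rw [lie_mul]
      have e1 : (Matrix.single i j 1 : M2) * Matrix.single i j 1 = 0 := by
        rw [Matrix.single_mul_single_of_ne _ _ _ _ hij.symm]
      have e2 : (Matrix.single i j 1 : M2) 0 0 + (Matrix.single i j 1 : M2) 1 1 = 0 := by
        rcases fin2 i with rfl | rfl <;> rcases fin2 j with rfl | rfl <;> simp at hij ⊢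
      rw [e1, e2]
      have e3 : lie P Q k 0 0 0 (0 : Fin m → ℂ) = 0 := by
        have := lie_smul P Q k 0 0 0 0 (0 : Fin m → ℂ)
        rw [zero_smul, zero_smul, zero_smul, zero_smul, zero_smul] at this
        exact this.symm
      rw [← e3]
      unfold lie
      simp
    have h1 := exp_nil h.hT hE (h.all _ 0 0 0) hx c
    rw [one_add_lie P Q k c _ (Matrix.transvection i j c) (by
      intro a b
      rw [Matrix.transvection, Matrix.add_apply]
      congr 1
      rw [Matrix.single_apply, Matrix.single_apply]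
      split_ifs <;> simp) (by
      rw [Matrix.det_transvection_of_ne _ _ hij]
      rcases fin2 i with rfl | rfl <;> rcases fin2 j with rfl | rfl <;> simp at hij ⊢)] at h1
    exact h1
  · intro A B _ _ hA hB
    exact hmul A B hA hB

/-- **The subtorsor contains the whole torsor.** -/
theorem Sit.sub (X : M2) (l : ℂ) (hX : X.det ≠ 0) (hl : X 0 0 * X 1 1 - X 0 1 * X 1 0 = k * l)
    (Y : Fin ρ → Fin 2 → ℂ) (t : I → ℂ) (z : Fin m → ℂ) : mat P Q X l Y t z ∈ T := by
  have hΩ : Ω.det ≠ 0 := by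
    rw [Matrix.det_fin_two, h.det]
    exact mul_ne_zero h.k0 h.τ0
  have hl0 : l ≠ 0 := by
    rintro rfl
    rw [mul_zero] at hl
    apply hX
    rw [Matrix.det_fin_two, hl]
  -- the part of weight zero
  have s1 : mat P Q X l U s b ∈ T := by
    have h1 := h.grp_stab (X * Ω⁻¹) (by
      rw [Matrix.det_mul]
      refine mul_ne_zero hX ?_
      exact (Matrix.isUnit_nonsing_inv_det _ (isUnit_iff_ne_zero.2 hΩ)).ne_zero) _ h.mem
    rw [grp_mul_mat, Matrix.mul_assoc, Matrix.nonsing_inv_mul _ (isUnit_iff_ne_zero.2 hΩ),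
      Matrix.mul_one] at h1
    have h2 : (X * Ω⁻¹).det * τ = l := by
      apply mul_left_cancel₀ h.k0
      rw [← hl, ← Matrix.det_fin_two]
      have h3 : X.det = (X * Ω⁻¹).det * Ω.det := by
        rw [← Matrix.det_mul, Matrix.mul_assoc, Matrix.nonsing_inv_mul _ (isUnit_iff_ne_zero.2 hΩ),
          Matrix.mul_one]
      rw [h3, Matrix.det_fin_two Ω, h.det]
      ring
    rw [h2] at h1
    exact h1
  -- the part of weight one
  have s2 : ∀ S : Finset (Fin ρ), ∃ t', mat P Q X l (fun j => if j ∈ S then Y j else U j) t' b ∈ T := by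
    intro S
    induction S using Finset.induction_on with
    | empty => exact ⟨s, by simpa using s1⟩
    | insert j₀ S hj ih =>
      obtain ⟨t', ht'⟩ := ih
      set y : Fin 2 → ℂ := fun c => ![((Y j₀ 0 - U j₀ 0) * X 1 1 - (Y j₀ 1 - U j₀ 1) * X 1 0),
        (Y j₀ 1 - U j₀ 1) * X 0 0 - (Y j₀ 0 - U j₀ 0) * X 0 1] c / (k * l) with hy
      have hkl : k * l ≠ 0 := mul_ne_zero h.k0 hl0
      have hyX : ∀ c, y 0 * X 0 c + y 1 * X 1 c = Y j₀ c - U j₀ c := by
        intro c
        have y0 : y 0 = ((Y j₀ 0 - U j₀ 0) * X 1 1 - (Y j₀ 1 - U j₀ 1) * X 1 0) / (k * l) := rfl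
        have y1 : y 1 = ((Y j₀ 1 - U j₀ 1) * X 0 0 - (Y j₀ 0 - U j₀ 0) * X 0 1) / (k * l) := rfl
        rw [y0, y1, div_mul_eq_mul_div, div_mul_eq_mul_div, ← add_div, div_eq_iff hkl]
        rcases fin2 c with rfl | rfl
        · linear_combination (Y j₀ 0 - U j₀ 0) * hl
        · linear_combination (Y j₀ 1 - U j₀ 1) * hl
      have hE : lie P Q k 0 (Pi.single j₀ y) 0 (0 : Fin m → ℂ) *
          lie P Q k 0 (Pi.single j₀ y) 0 (0 : Fin m → ℂ) = 0 := by
        rw [lie_mul, Matrix.mul_zero]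
        have e3 : lie P Q k 0 0 0 (0 : Fin m → ℂ) = 0 := by
          have := lie_smul P Q k 0 0 0 0 (0 : Fin m → ℂ)
          rw [zero_smul, zero_smul, zero_smul, zero_smul, zero_smul] at this
          exact this.symm
        rw [← e3]
        have hz : ∀ e, (Pi.single j₀ y : Fin ρ → Fin 2 → ℂ) (P e) 1 *
            (Pi.single j₀ y : Fin ρ → Fin 2 → ℂ) (Q e) 0 -
            (Pi.single j₀ y : Fin ρ → Fin 2 → ℂ) (P e) 0 *
            (Pi.single j₀ y : Fin ρ → Fin 2 → ℂ) (Q e) 1 = 0 := by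
          intro e
          by_cases a1 : P e = j₀
          · by_cases a2 : Q e = j₀
            · rw [a1, a2, Pi.single_eq_same]
              ring
            · simp [Pi.single_eq_of_ne a2]
          · simp [Pi.single_eq_of_ne a1]
        unfold lie
        congr 1
        · funext j
          simp
        · funext e
          simp [hz]
        · funext i
          simp
      have h1 := exp_nil h.hT hE (h.all _ _ _ _) ht' 1
      rw [uni_mul_mat P Q k X l hl] at h1
      have eY : (fun (j : Fin ρ) (c : Fin 2) => (if j ∈ S then Y j else U j) c +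
          ((Pi.single j₀ y : Fin ρ → Fin 2 → ℂ) j 0 * X 0 c +
            (Pi.single j₀ y : Fin ρ → Fin 2 → ℂ) j 1 * X 1 c)) =
          fun j => if j ∈ insert j₀ S then Y j else U j := by
        funext j c
        by_cases hjj : j = j₀
        · subst hjj
          rw [Pi.single_eq_same, hyX, if_pos (Finset.mem_insert_self _ _), if_neg hj]
          ring
        · rw [Pi.single_eq_of_ne hjj]
          have : (j ∈ insert j₀ S) ↔ j ∈ S := by
            rw [Finset.mem_insert]
            exact ⟨fun h => h.resolve_left hjj, Or.inr⟩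
          simp only [this, Pi.zero_apply, zero_mul, add_zero]
      have ez : (fun i => b i + (0 : Fin m → ℂ) i * l) = b := by
        funext i
        simp
      rw [eY, ez] at h1
      exact ⟨_, h1⟩
  obtain ⟨t', ht'⟩ := s2 Finset.univ
  simp only [Finset.mem_univ, if_true] at ht'
  -- the part of weight two
  have hE : lie P Q k 0 0 (fun e => (t e - t' e) / l) (fun i => (z i - b i) / l) *
      lie P Q k 0 0 (fun e => (t e - t' e) / l) (fun i => (z i - b i) / l) = 0 := by
    rw [lie_mul, Matrix.mul_zero]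
    have e3 : lie P Q k 0 0 0 (0 : Fin m → ℂ) = 0 := by
      have := lie_smul P Q k 0 0 0 0 (0 : Fin m → ℂ)
      rw [zero_smul, zero_smul, zero_smul, zero_smul, zero_smul] at this
      exact this.symm
    rw [← e3]
    unfold lie
    simp
  have h1 := exp_nil h.hT hE (h.all _ _ _ _) ht' 1
  rw [uni_mul_mat P Q k X l hl] at h1
  convert h1 using 2
  · funext j c
    simp
  · funext e
    simp only [Pi.zero_apply, zero_mul, add_zero]
    rw [div_mul_cancel₀ _ hl0]
    ring
  · funext i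
    rw [div_mul_cancel₀ _ hl0]
    ring

end Pool.Agent.U725.OM
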