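import Mathlib

/-!
# Lie algebras of 2 × 2 matrices without invariant lines
-/

set_option autoImplicit false

open Matrix

namespace Pool.Agent.U725.OM

theorem prop_of_det {u v : Fin 2 → ℂ} (hu : u ≠ 0) (h : u 0 * v 1 = u 1 * v 0) :
    ∃ c : ℂ, v = c • u := by
  by_cases h0 : u 0 = 0
  · have h1 : u 1 ≠ 0 := by
      intro h1
      apply hu
      funext i
      fin_cases i
      · exact h0
      · exact h1
    refine ⟨v 1 / u 1, ?_⟩
    have h2 : v 0 = 0 := by
      rw [h0, zero_mul] at h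
      exact (mul_eq_zero.1 h.symm).resolve_left h1
    funext i
    fin_cases i
    · simp [h0, h2]
    · simp [h1]
  · refine ⟨v 0 / u 0, ?_⟩
    funext i
    fin_cases i
    · simp [h0]
    · simp only [Fin.mk_one, Pi.smul_apply, smul_eq_mul]
      field_simp
      linear_combination h

theorem prop_of_row {r u v : Fin 2 → ℂ} (hr : r ≠ 0) (hu : u ≠ 0)
    (h1 : r 0 * u 0 + r 1 * u 1 = 0) (h2 : r 0 * v 0 + r 1 * v 1 = 0) : ∃ c : ℂ, v = c • u := by
  apply prop_of_det hu
  by_cases h0 : r 0 = 0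
  · have h3 : r 1 ≠ 0 := by
      intro h3
      apply hr
      funext i
      fin_cases i
      · exact h0
      · exact h3
    apply mul_left_cancel₀ h3
    linear_combination u 0 * h2 - v 0 * h1
  · apply mul_left_cancel₀ h0
    linear_combination v 1 * h1 - u 1 * h2

/-- vectors orthogonal to two independent vectors -/
theorem prop_cross {x u v : Fin 3 → ℂ} {w : Fin 3 → ℂ} (hw0 : w 0 = u 1 * v 2 - u 2 * v 1)
    (hw1 : w 1 = u 2 * v 0 - u 0 * v 2) (hw2 : w 2 = u 0 * v 1 - u 1 * v 0) (hw : w ≠ 0)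
    (h1 : x 0 * u 0 + x 1 * u 1 + x 2 * u 2 = 0) (h2 : x 0 * v 0 + x 1 * v 1 + x 2 * v 2 = 0) :
    ∃ c : ℂ, x = c • w := by
  have e0 : x 1 * w 2 = x 2 * w 1 := by
    rw [hw1, hw2]
    linear_combination u 0 * h2 - v 0 * h1
  have e1 : x 2 * w 0 = x 0 * w 2 := by
    rw [hw0, hw2]
    linear_combination u 1 * h2 - v 1 * h1
  have e2 : x 0 * w 1 = x 1 * w 0 := by
    rw [hw0, hw1]
    linear_combination u 2 * h2 - v 2 * h1
  obtain ⟨i, hi⟩ : ∃ i, w i ≠ 0 := by
    by_contra hcon
    push Not at hcon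
    exact hw (funext hcon)
  refine ⟨x i / w i, ?_⟩
  funext j
  rw [Pi.smul_apply, smul_eq_mul, div_mul_eq_mul_div, eq_div_iff hi]
  fin_cases i <;> fin_cases j <;> simp only [Fin.zero_eta, Fin.mk_one, Fin.reduceFinMk] at hi ⊢
  · linear_combination -e2
  · linear_combination e1
  · linear_combination e2
  · linear_combination -e0
  · linear_combination -e1
  · linear_combination e0

abbrev M2 := Matrix (Fin 2) (Fin 2) ℂ

theorem mulVec_two (A : M2) (u : Fin 2 → ℂ) :
    A *ᵥ u = ![A 0 0 * u 0 + A 0 1 * u 1, A 1 0 * u 0 + A 1 1 * u 1] := by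
  funext i
  fin_cases i <;> simp [Matrix.mulVec, dotProduct, Fin.sum_univ_two]

theorem exists_eigen (A : M2) : ∃ (μ : ℂ) (u : Fin 2 → ℂ), u ≠ 0 ∧ A *ᵥ u = μ • u := by
  obtain ⟨μ, hμ⟩ := Module.End.exists_eigenvalue (Matrix.toLin' A)
  obtain ⟨u, hu⟩ := hμ.exists_hasEigenvector
  refine ⟨μ, u, hu.2, ?_⟩
  have := hu.apply_eq_smul
  rwa [Matrix.toLin'_apply] at this

/-- A Lie algebra of 2 × 2 matrices without invariant lines: the orthogonal complement. -/
theorem orth_zero (S : Submodule ℂ M2) (hbr : ∀ A ∈ S, ∀ B ∈ S, A * B - B * A ∈ S)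
    (hirr : ∀ u : Fin 2 → ℂ, u ≠ 0 → ∃ A ∈ S, ∀ c : ℂ, A *ᵥ u ≠ c • u) (n p q : ℂ)
    (hN : ∀ A ∈ S, n * (A 0 0 - A 1 1) + p * A 1 0 + q * A 0 1 = 0) : n = 0 ∧ p = 0 ∧ q = 0 := by
  by_contra hne
  by_cases hcomm : ∀ A ∈ S, ∀ B ∈ S, A * B = B * A
  · -- all elements commute
    by_cases hsc : ∃ A ∈ S, ∀ c : ℂ, A ≠ c • (1 : M2)
    · obtain ⟨A, hA, hAs⟩ := hsc
      obtain ⟨μ, u, hu, hAu⟩ := exists_eigen A
      obtain ⟨B, hB, hBu⟩ := hirr u hu
      have h1 : A - μ • (1 : M2) ≠ 0 := fun h => hAs μ (sub_eq_zero.1 h)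
      obtain ⟨i, hi⟩ : ∃ i, (A - μ • (1 : M2)) i ≠ 0 := by
        by_contra hcon
        push Not at hcon
        exact h1 (funext hcon)
      have h2 : (A - μ • (1 : M2)) *ᵥ u = 0 := by
        rw [Matrix.sub_mulVec, Matrix.smul_mulVec, Matrix.one_mulVec, hAu, sub_self]
      have h3 : (A - μ • (1 : M2)) *ᵥ (B *ᵥ u) = 0 := by
        rw [Matrix.sub_mulVec, Matrix.smul_mulVec, Matrix.one_mulVec, Matrix.mulVec_mulVec,
          hcomm A hA B hB, ← Matrix.mulVec_mulVec, hAu, Matrix.mulVec_smul, sub_self]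
      have h4 : ∀ v : Fin 2 → ℂ, (A - μ • (1 : M2)) *ᵥ v = 0 →
          (A - μ • (1 : M2)) i 0 * v 0 + (A - μ • (1 : M2)) i 1 * v 1 = 0 := by
        intro v hv
        have := congrFun hv i
        rwa [Matrix.mulVec, dotProduct, Fin.sum_univ_two] at this
      obtain ⟨c, hc⟩ := prop_of_row hi hu (h4 u h2) (h4 _ h3)
      exact hBu c hc
    · push Not at hsc
      obtain ⟨A, hA, hAu⟩ := hirr ![1, 0] (by
        intro h
        have := congrFun h 0
        simp at this)
      obtain ⟨c, hc⟩ := hsc A hA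
      apply hAu c
      rw [hc, Matrix.smul_mulVec, Matrix.one_mulVec]
  · push Not at hcomm
    obtain ⟨A, hA, B, hB, hAB⟩ := hcomm
    have hC := hbr A hA B hB
    have c00 : (A * B - B * A) 0 0 = A 0 1 * B 1 0 - B 0 1 * A 1 0 := by
      simp [Matrix.mul_apply, Fin.sum_univ_two]
      ring
    have c11 : (A * B - B * A) 1 1 = -(A 0 1 * B 1 0 - B 0 1 * A 1 0) := by
      simp [Matrix.mul_apply, Fin.sum_univ_two]
      ring
    have c01 : (A * B - B * A) 0 1 = (A 0 0 - A 1 1) * B 0 1 - (B 0 0 - B 1 1) * A 0 1 := by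
      simp [Matrix.mul_apply, Fin.sum_univ_two]
      ring
    have c10 : (A * B - B * A) 1 0 = A 1 0 * (B 0 0 - B 1 1) - B 1 0 * (A 0 0 - A 1 1) := by
      simp [Matrix.mul_apply, Fin.sum_univ_two]
      ring
    set C := A * B - B * A with hCdef
    have hC0 : (![-C 0 0, -C 0 1, -C 1 0] : Fin 3 → ℂ) ≠ 0 := by
      intro h
      apply hAB
      rw [← sub_eq_zero, ← hCdef]
      have z0 : C 0 0 = 0 := by simpa using congrFun h 0
      have z1 : C 0 1 = 0 := by simpa using congrFun h 1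
      have z2 : C 1 0 = 0 := by simpa using congrFun h 2
      have z3 : C 1 1 = 0 := by rw [c11, ← c00, z0, neg_zero]
      ext i j
      fin_cases i <;> fin_cases j <;> assumption
    obtain ⟨c, hc⟩ := prop_cross (x := ![n, p, q]) (u := ![A 0 0 - A 1 1, A 1 0, A 0 1])
      (v := ![B 0 0 - B 1 1, B 1 0, B 0 1]) (w := ![-C 0 0, -C 0 1, -C 1 0])
      (by simp [c00]; ring) (by simp [c01]; ring) (by simp [c10]; ring) hC0
      (by simpa using hN A hA) (by simpa using hN B hB)
    have en : n = -(c * C 0 0) := by simpa using congrFun hc 0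
    have ep : p = -(c * C 0 1) := by simpa using congrFun hc 1
    have eq : q = -(c * C 1 0) := by simpa using congrFun hc 2
    have hNC := hN C hC
    have hnil : n * n + p * q = 0 := by
      have h2 : 2 * (n * n + p * q) = 0 := by
        have h3 : C 1 1 = - C 0 0 := by rw [c11, c00]
        rw [h3] at hNC
        have : 2 * (n * n + p * q) = -c * (n * (C 0 0 - -C 0 0) + p * C 1 0 + q * C 0 1) := by
          linear_combination (2 * n) * en + q * ep + p * eq
        rw [this, hNC, mul_zero]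
      simpa using h2
    by_cases hpn : (![-p, n] : Fin 2 → ℂ) = 0
    · have hp : p = 0 := by simpa using congrFun hpn 0
      have hn : n = 0 := by simpa using congrFun hpn 1
      have hq : q ≠ 0 := fun hq => hne ⟨hn, hp, hq⟩
      obtain ⟨A', hA', h⟩ := hirr ![0, 1] (by
        intro h
        have := congrFun h 1
        simp at this)
      have h5 := hN A' hA'
      rw [hp, hn] at h5
      have h6 : A' 0 1 = 0 := by
        have : q * A' 0 1 = 0 := by linear_combination h5
        exact (mul_eq_zero.1 this).resolve_left hq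
      apply h (A' 1 1)
      rw [mulVec_two]
      funext i
      fin_cases i
      · simp [h6]
      · simp
    · obtain ⟨A', hA', h⟩ := hirr _ hpn
      have h5 := hN A' hA'
      obtain ⟨c', hc'⟩ := prop_of_det hpn (v := A' *ᵥ ![-p, n]) (by
        rw [mulVec_two]
        simp only [Matrix.cons_val_zero, Matrix.cons_val_one]
        linear_combination p * h5 - A' 0 1 * hnil)
      exact h c' hc'

/-- **A Lie algebra of 2 × 2 matrices without invariant lines which is not contained in `sl(2)` is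
everything.** -/
theorem full (S : Submodule ℂ M2) (hbr : ∀ A ∈ S, ∀ B ∈ S, A * B - B * A ∈ S)
    (hirr : ∀ u : Fin 2 → ℂ, u ≠ 0 → ∃ A ∈ S, ∀ c : ℂ, A *ᵥ u ≠ c • u)
    (htr : ∃ A ∈ S, A 0 0 + A 1 1 ≠ 0) (M : M2) : M ∈ S := by
  -- with the scalars, the Lie algebra is everything
  have h1 : ∀ X : M2, ∃ A ∈ S, ∃ c : ℂ, X = A + c • (1 : M2) := by
    intro X
    by_contra hcon
    have hX : X ∉ S ⊔ Submodule.span ℂ {(1 : M2)} := by
      intro h
      apply hcon
      obtain ⟨A, hA, B, hB, hAB⟩ := Submodule.mem_sup.1 h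
      obtain ⟨c, rfl⟩ := Submodule.mem_span_singleton.1 hB
      exact ⟨A, hA, c, hAB.symm⟩
    obtain ⟨f, hf1, hf2⟩ := Submodule.exists_le_ker_of_notMem hX
    have hf : ∀ A : M2, f A = A 0 0 * f (Matrix.single 0 0 1) + A 0 1 * f (Matrix.single 0 1 1) +
        A 1 0 * f (Matrix.single 1 0 1) + A 1 1 * f (Matrix.single 1 1 1) := by
      intro A
      have h2 : A = A 0 0 • Matrix.single 0 0 1 + A 0 1 • Matrix.single 0 1 1 +
          A 1 0 • Matrix.single 1 0 1 + A 1 1 • Matrix.single 1 1 (1 : ℂ) := by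
        ext i j
        fin_cases i <;> fin_cases j <;> simp [Matrix.single]
      conv_lhs => rw [h2]
      simp only [map_add, map_smul, smul_eq_mul]
    have h3 : f 1 = 0 := hf2 (Submodule.mem_sup_right (Submodule.mem_span_singleton_self _))
    rw [hf] at h3
    simp only [Matrix.one_apply_eq, one_mul, ne_eq, zero_ne_one, not_false_eq_true,
      Matrix.one_apply_ne, one_ne_zero, zero_mul, add_zero] at h3
    have h4 := orth_zero S hbr hirr (f (Matrix.single 0 0 1)) (f (Matrix.single 1 0 1))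
      (f (Matrix.single 0 1 1)) (by
        intro A hA
        have h5 : f A = 0 := hf2 (Submodule.mem_sup_left hA)
        rw [hf] at h5
        linear_combination h5 - A 1 1 * h3)
    apply hf1
    have h6 : f (Matrix.single 1 1 1) = 0 := by
      have := h3
      rw [h4.1] at this
      simpa using this
    rw [hf, h4.1, h4.2.1, h4.2.2, h6]
    ring
  have h2 : ∀ X Y : M2, X * Y - Y * X ∈ S := by
    intro X Y
    obtain ⟨A, hA, c, rfl⟩ := h1 X
    obtain ⟨B, hB, d, rfl⟩ := h1 Y
    have : (A + c • (1 : M2)) * (B + d • (1 : M2)) - (B + d • (1 : M2)) * (A + c • (1 : M2)) =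
        A * B - B * A := by
      simp only [Matrix.add_mul, Matrix.mul_add, Matrix.smul_mul, Matrix.mul_smul, Matrix.one_mul,
        Matrix.mul_one]
      module
    rw [this]
    exact hbr A hA B hB
  have e01 : (Matrix.single 0 1 1 : M2) ∈ S := by
    have := h2 (Matrix.single 0 0 1) (Matrix.single 0 1 1)
    simpa using this
  have e10 : (Matrix.single 1 0 1 : M2) ∈ S := by
    have := h2 (Matrix.single 1 1 1) (Matrix.single 1 0 1)
    simpa using this
  have eH : (Matrix.single 0 0 1 - Matrix.single 1 1 1 : M2) ∈ S := by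
    have := h2 (Matrix.single 0 1 1) (Matrix.single 1 0 1)
    simpa using this
  obtain ⟨A, hA, htA⟩ := htr
  have e1 : (1 : M2) ∈ S := by
    have h3 : ((A 0 0 + A 1 1) / 2) • (1 : M2) = A - ((A 0 0 - A 1 1) / 2) •
        (Matrix.single 0 0 1 - Matrix.single 1 1 1 : M2) - A 0 1 • Matrix.single 0 1 1 -
        A 1 0 • Matrix.single 1 0 1 := by
      ext i j
      fin_cases i <;> fin_cases j <;> simp [Matrix.single] <;> ring
    have h4 : ((A 0 0 + A 1 1) / 2) • (1 : M2) ∈ S := by
      rw [h3]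
      exact Submodule.sub_mem _ (Submodule.sub_mem _ (Submodule.sub_mem _ hA
        (Submodule.smul_mem _ _ eH)) (Submodule.smul_mem _ _ e01)) (Submodule.smul_mem _ _ e10)
    have h5 : ((A 0 0 + A 1 1) / 2)⁻¹ • ((A 0 0 + A 1 1) / 2) • (1 : M2) = 1 := by
      rw [smul_smul, inv_mul_cancel₀ (div_ne_zero htA two_ne_zero), one_smul]
    rw [← h5]
    exact Submodule.smul_mem _ _ h4
  obtain ⟨B, hB, c, rfl⟩ := h1 M
  exact Submodule.add_mem _ hB (Submodule.smul_mem _ _ e1)

end Pool.Agent.U725.OM
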