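import Pool.Agent.Y123.ST.Exp

/-!
# The left Lie algebra of a subtorsor is closed under brackets; idempotents can be exponentiated
-/

set_option autoImplicit false
set_option linter.unusedSectionVars false

open Matrix MvPolynomial

namespace Pool.Agent.U725.OM

open Pool.Agent.TH127.PT Pool.Agent.TH119.MX Pool.Agent.TH119.DR Pool.Agent.Y123.ST

variable {N : Type} [Fintype N] [DecidableEq N] {K : Subfield ℂ} {T : Set (Matrix N N ℂ)}

/-- the vector field of `w`, as a derivation -/
noncomputable def DD (w : Matrix N N ℂ) :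
    Derivation ℂ (MvPolynomial (N × N) ℂ) (MvPolynomial (N × N) ℂ) :=
  MvPolynomial.mkDerivation ℂ (sb (ml w))

theorem DD_eq (w : Matrix N N ℂ) (P : MvPolynomial (N × N) ℂ) : DD w P = DL w P := by
  induction P using MvPolynomial.induction_on with
  | C a =>
    have h1 : DD w (C a) = 0 := (DD w).map_algebraMap a
    rw [h1]
    simp [DL]
  | add p q hp hq =>
    rw [map_add, hp, hq]
    unfold DL
    rw [← Finset.sum_add_distrib]
    refine Finset.sum_congr rfl fun b _ => ?_
    rw [map_add, add_mul]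
  | mul_X p i hp =>
    have h1 : DD w (X i) = sb (ml w) i := mkDerivation_X _ _ _
    rw [Derivation.leibniz, hp, h1, smul_eq_mul, smul_eq_mul]
    unfold DL
    have h2 : ∀ b : N × N, pderiv b (p * X i) * sb (ml w) b =
        X i * (pderiv b p * sb (ml w) b) + (if i = b then p * sb (ml w) i else 0) := by
      intro b
      rw [pderiv_mul]
      by_cases h : i = b
      · subst h
        rw [pderiv_X_self, if_pos rfl]
        ring
      · rw [pderiv_X_of_ne h, if_neg h]
        ring
    rw [Finset.sum_congr rfl fun b _ => h2 b, Finset.sum_add_distrib, Finset.sum_ite_eq,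
      if_pos (Finset.mem_univ _), ← Finset.mul_sum]
    ring

theorem sb_comp (L L' : (N × N → ℂ) →ₗ[ℂ] (N × N → ℂ)) (w : Matrix N N ℂ) (hL : L = ml w)
    (b : N × N) : DD w (sb L' b) = sb (L' ∘ₗ L) b := by
  subst hL
  unfold sb
  rw [map_sum]
  have h1 : ∀ k : N × N, DD w (C (L' (Pi.single k 1) b) * X k) =
      ∑ j, C (L' (Pi.single k 1) b * ml w (Pi.single j 1) k) * X j := by
    intro k
    rw [Derivation.leibniz, mkDerivation_C' w, smul_zero, add_zero, smul_eq_mul]
    rw [show DD w (X k) = sb (ml w) k from mkDerivation_X _ _ _]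
    unfold sb
    rw [Finset.mul_sum]
    refine Finset.sum_congr rfl fun j _ => ?_
    rw [← mul_assoc, ← map_mul]
  rw [Finset.sum_congr rfl fun k _ => h1 k, Finset.sum_comm]
  refine Finset.sum_congr rfl fun j _ => ?_
  rw [← Finset.sum_mul, ← map_sum]
  congr 2
  rw [LinearMap.comp_apply, lin_apply L' (ml w (Pi.single j 1)) b]
where
  mkDerivation_C' (w : Matrix N N ℂ) {a : ℂ} : DD w (C a) = 0 := by
    exact (DD w).map_algebraMap a

/-- the left Lie algebra is closed under brackets -/
theorem lie_mem {w w' : Matrix N N ℂ} (hw : fl w ∈ LL T) (hw' : fl w' ∈ LL T) :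
    fl (w * w' - w' * w) ∈ LL T := by
  intro P hP x hx
  have h0 : ∀ Q, (DD (w * w' - w' * w)) Q = DD w' (DD w Q) - DD w (DD w' Q) := by
    have h1 : DD (w * w' - w' * w) = ⁅DD w', DD w⁆ := by
      apply MvPolynomial.derivation_ext
      intro i
      rw [Derivation.commutator_apply]
      have e1 : DD w (X i) = sb (ml w) i := mkDerivation_X _ _ _
      have e2 : DD w' (X i) = sb (ml w') i := mkDerivation_X _ _ _
      have e3 : DD (w * w' - w' * w) (X i) = sb (ml (w * w' - w' * w)) i := mkDerivation_X _ _ _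
      rw [e1, e2, e3, sb_comp _ (ml w) w' rfl, sb_comp _ (ml w') w rfl]
      unfold sb
      rw [← Finset.sum_sub_distrib]
      refine Finset.sum_congr rfl fun k _ => ?_
      rw [← sub_mul, ← map_sub]
      congr 2
      simp only [LinearMap.comp_apply, ml, LinearMap.coe_mk, AddHom.coe_mk, um_fl, fl,
        Matrix.sub_mul, Matrix.mul_assoc, Matrix.sub_apply]
    intro Q
    rw [h1, Derivation.commutator_apply]
  have h2 := eval_DL (w * w' - w' * w) P (fl x)
  rw [ml_fl] at h2
  rw [um_fl, ← h2, ← DD_eq, h0, map_sub, DD_eq, DD_eq, DD_eq, DD_eq,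
    van_DL hw' (van_DL hw hP) x hx, van_DL hw (van_DL hw' hP) x hx, sub_zero]

/-- idempotent elements can be exponentiated -/
theorem exp_idem (hT : IsSubtorsor K T) {E x : Matrix N N ℂ} (hE : E * E = E) (hEL : fl E ∈ LL T)
    (hx : x ∈ T) {s : ℂ} (hs : s ≠ 0) : ((1 - E) + s • E) * x ∈ T := by
  have hxT := hx
  have hT' := hT
  obtain ⟨I, h1, h2⟩ := hT.algebraic
  have hIV : ∀ p ∈ I, Van T p := fun p hp y hy => ((h2 y).1 hy).2 p hp
  have hE' : E * ((1 - E) * x) = 0 := by
    rw [← Matrix.mul_assoc, Matrix.mul_sub, Matrix.mul_one, hE, sub_self, Matrix.zero_mul]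
  have hx1 : fl x = fun k => fl ((1 - E) * x) k + 1 * fl (E * x) k := by
    funext b
    simp only [fl, Matrix.sub_mul, Matrix.one_mul, Matrix.sub_apply]
    ring
  have hz := all_zero (Van T)
    (fun P => aeval (fun k => Polynomial.C (fl ((1 - E) * x) k) + Polynomial.X *
      Polynomial.C (fl (E * x) k)) P) (DL E) 1 Polynomial.X
    (by simp) (by
      intro P hP
      have h3 := eval_aeval' (fl ((1 - E) * x)) (fl (E * x)) P 1
      rw [← hx1] at h3
      rw [h3]
      exact hP x hx) (fun P hP => van_DL hEL hP) (by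
      intro P _
      rw [deriv_aeval]
      unfold DL
      rw [map_sum, Finset.mul_sum]
      refine Finset.sum_congr rfl fun b _ => ?_
      rw [map_mul, aeval_sb, ml_fl, ml_fl, hE', ← Matrix.mul_assoc, hE]
      have h5 : fl (0 : Matrix N N ℂ) b = 0 := rfl
      rw [h5]
      simp only [Polynomial.derivative_add, Polynomial.derivative_C, Polynomial.derivative_mul,
        Polynomial.derivative_X, zero_add, one_mul, mul_zero, add_zero, map_zero]
      ring)
  rw [h2]
  refine ⟨?_, fun p hp => ?_⟩
  · refine IsUnit.mul ?_ (hT'.isUnit x hxT)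
    refine IsUnit.of_mul_eq_one ((1 - E) + s⁻¹ • E) ?_
    have e1 : (1 - E) * (1 - E) = 1 - E := by
      rw [Matrix.sub_mul, Matrix.mul_sub, Matrix.mul_sub, Matrix.one_mul, Matrix.mul_one,
        Matrix.one_mul, hE]
      abel
    have e2 : (1 - E) * E = 0 := by rw [Matrix.sub_mul, Matrix.one_mul, hE, sub_self]
    have e3 : E * (1 - E) = 0 := by rw [Matrix.mul_sub, Matrix.mul_one, hE, sub_self]
    rw [Matrix.add_mul, Matrix.mul_add, Matrix.mul_add, e1, Matrix.mul_smul, Matrix.smul_mul,
      Matrix.smul_mul, Matrix.mul_smul, e2, e3, hE, smul_smul, mul_inv_cancel₀ hs]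
    simp
  · have h3 := hz p (hIV p hp)
    have h4 := eval_aeval' (fl ((1 - E) * x)) (fl (E * x)) p s
    rw [h3, Polynomial.eval_zero] at h4
    have h6 : fl (((1 - E) + s • E) * x) = fun k => fl ((1 - E) * x) k + s * fl (E * x) k := by
      funext b
      rw [Matrix.add_mul, Matrix.smul_mul]
      rfl
    change eval (fl (((1 - E) + s • E) * x)) p = 0
    rw [h6, ← h4]

end Pool.Agent.U725.OM
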