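import Pool.Agent.U725.OM.Mat

/-!
# The Lie algebra of a subtorsor through the period point
-/

set_option autoImplicit false
set_option linter.unusedSectionVars false

open Matrix

namespace Pool.Agent.U725.OM

open Pool.Agent.TH127.PT Pool.Agent.TH119.MX Pool.Agent.TH119.DR Pool.Agent.Y123.ST

variable {ρ m : ℕ} {I : Type} [Fintype I] [DecidableEq I]
variable {P Q : I → Fin ρ} {k : ℂ} {K : Subfield ℂ}
  {T : Set (Matrix (BB ρ I m) (BB ρ I m) ℂ)}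

/-- the tuple gives an element of the Lie algebra -/
def InL (P Q : I → Fin ρ) (k : ℂ) (T : Set (Matrix (BB ρ I m) (BB ρ I m) ℂ)) (A : M2)
    (Y : Fin ρ → Fin 2 → ℂ) (t : I → ℂ) (z : Fin m → ℂ) : Prop :=
  fl (lie P Q k A Y t z) ∈ LL T

theorem InL.add {A A' : M2} {Y Y' : Fin ρ → Fin 2 → ℂ} {t t' : I → ℂ} {z z' : Fin m → ℂ}
    (h : InL P Q k T A Y t z) (h' : InL P Q k T A' Y' t' z') :
    InL P Q k T (A + A') (Y + Y') (t + t') (z + z') := by
  unfold InL at *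
  rw [← lie_add, fl_add]
  exact Submodule.add_mem _ h h'

theorem InL.sub {A A' : M2} {Y Y' : Fin ρ → Fin 2 → ℂ} {t t' : I → ℂ} {z z' : Fin m → ℂ}
    (h : InL P Q k T A Y t z) (h' : InL P Q k T A' Y' t' z') :
    InL P Q k T (A - A') (Y - Y') (t - t') (z - z') := by
  unfold InL at *
  rw [← lie_sub]
  exact Submodule.sub_mem _ h h'

theorem InL.smul (s : ℂ) {A : M2} {Y : Fin ρ → Fin 2 → ℂ} {t : I → ℂ} {z : Fin m → ℂ}
    (h : InL P Q k T A Y t z) : InL P Q k T (s • A) (s • Y) (s • t) (s • z) := by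
  unfold InL at *
  rw [← lie_smul, fl_smul]
  exact Submodule.smul_mem _ _ h

theorem InL.br {A A' : M2} {Y Y' : Fin ρ → Fin 2 → ℂ} {t t' : I → ℂ} {z z' : Fin m → ℂ}
    (h : InL P Q k T A Y t z) (h' : InL P Q k T A' Y' t' z') :
    InL P Q k T (A * A' - A' * A)
        (fun j b => (Y j 0 * A' 0 b + Y j 1 * A' 1 b) - (Y' j 0 * A 0 b + Y' j 1 * A 1 b))
        (fun e => t e * (A' 0 0 + A' 1 1) + k * (Y (P e) 1 * Y' (Q e) 0 - Y (P e) 0 * Y' (Q e) 1) -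
          (t' e * (A 0 0 + A 1 1) + k * (Y' (P e) 1 * Y (Q e) 0 - Y' (P e) 0 * Y (Q e) 1)))
        (fun i => z i * (A' 0 0 + A' 1 1) - z' i * (A 0 0 + A 1 1)) := by
  unfold InL at *
  rw [← lie_br]
  exact lie_mem h h'

theorem InL.zero : InL P Q k T 0 0 0 0 := by
  have h : lie P Q k 0 0 0 (0 : Fin m → ℂ) = 0 := by
    have := lie_smul P Q k 0 0 0 0 (0 : Fin m → ℂ)
    rw [zero_smul, zero_smul, zero_smul, zero_smul, zero_smul] at this
    exact this.symm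
  unfold InL
  rw [h]
  exact Submodule.zero_mem _

theorem InL.aut (hT : IsSubtorsor K T) {σ : ℂ ≃+* ℂ} (hσ : ∀ x ∈ K, σ x = x) (hk : k ∈ K) {A : M2}
    {Y : Fin ρ → Fin 2 → ℂ} {t : I → ℂ} {z : Fin m → ℂ} (h : InL P Q k T A Y t z) :
    InL P Q k T (A.map σ) (fun j b => σ (Y j b)) (fun e => σ (t e)) (fun i => σ (z i)) := by
  unfold InL at *
  have h1 := LL_aut hT σ hσ _ h
  have h2 := lie_map P Q k (σ : ℂ →+* ℂ) (hσ k hk) A Y t z
  have h3 : fl ((lie P Q k A Y t z).map (σ : ℂ →+* ℂ)) =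
      fl (lie P Q k (A.map σ) (fun j b => σ (Y j b)) (fun e => σ (t e)) (fun i => σ (z i))) :=
    congrArg fl h2
  rw [← h3]
  exact h1

/-- the logarithmic derivatives -/
theorem logder (hT : IsSubtorsor K T) (hk : k ≠ 0) {Ω : M2} {τ : ℂ} (hτ : τ ≠ 0)
    (hdet : Ω 0 0 * Ω 1 1 - Ω 0 1 * Ω 1 0 = k * τ) {U : Fin ρ → Fin 2 → ℂ} {s : I → ℂ}
    {b : Fin m → ℂ} (hc : mat P Q Ω τ U s b ∈ T) (D : Derivation K ℂ ℂ) (hD : D k = 0) :
    ∃ (A : M2) (Y : Fin ρ → Fin 2 → ℂ) (t : I → ℂ) (z : Fin m → ℂ), InL P Q k T A Y t z ∧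
      (∀ a c, A a 0 * Ω 0 c + A a 1 * Ω 1 c = D (Ω a c)) ∧
      (∀ j c, Y j 0 * Ω 0 c + Y j 1 * Ω 1 c = D (U j c)) ∧ (A 0 0 + A 1 1) * τ = D τ ∧
      ∀ i, z i * τ = D (b i) := by
  have hd : k * τ ≠ 0 := mul_ne_zero hk hτ
  set d := k * τ with hddef
  -- solve the linear systems
  set A : M2 := Matrix.of fun a c => (![D (Ω a 0) * Ω 1 1 - D (Ω a 1) * Ω 1 0,
    D (Ω a 1) * Ω 0 0 - D (Ω a 0) * Ω 0 1] c) / d with hA
  set Y : Fin ρ → Fin 2 → ℂ := fun j c => (![D (U j 0) * Ω 1 1 - D (U j 1) * Ω 1 0,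
    D (U j 1) * Ω 0 0 - D (U j 0) * Ω 0 1] c) / d with hY
  have hA0 : ∀ a, A a 0 = (D (Ω a 0) * Ω 1 1 - D (Ω a 1) * Ω 1 0) / d := fun a => rfl
  have hA1 : ∀ a, A a 1 = (D (Ω a 1) * Ω 0 0 - D (Ω a 0) * Ω 0 1) / d := fun a => rfl
  have hY0 : ∀ j, Y j 0 = (D (U j 0) * Ω 1 1 - D (U j 1) * Ω 1 0) / d := fun a => rfl
  have hY1 : ∀ j, Y j 1 = (D (U j 1) * Ω 0 0 - D (U j 0) * Ω 0 1) / d := fun a => rfl
  have h1 : ∀ a c, A a 0 * Ω 0 c + A a 1 * Ω 1 c = D (Ω a c) := by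
    intro a c
    rw [hA0, hA1, div_mul_eq_mul_div, div_mul_eq_mul_div, ← add_div, div_eq_iff hd]
    fin_cases c
    · simp only [Fin.zero_eta]
      linear_combination (D (Ω a 0)) * hdet
    · simp only [Fin.mk_one]
      linear_combination (D (Ω a 1)) * hdet
  have h2 : ∀ j c, Y j 0 * Ω 0 c + Y j 1 * Ω 1 c = D (U j c) := by
    intro j c
    rw [hY0, hY1, div_mul_eq_mul_div, div_mul_eq_mul_div, ← add_div, div_eq_iff hd]
    fin_cases c
    · simp only [Fin.zero_eta]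
      linear_combination (D (U j 0)) * hdet
    · simp only [Fin.mk_one]
      linear_combination (D (U j 1)) * hdet
  have h3 : (A 0 0 + A 1 1) * τ = D τ := by
    have e1 := congrArg D hdet
    rw [hddef] at e1
    simp only [map_sub, Derivation.leibniz, smul_eq_mul, hD, mul_zero, add_zero] at e1
    apply mul_left_cancel₀ hk
    rw [← e1]
    have e2 : k * ((A 0 0 + A 1 1) * τ) = (A 0 0 + A 1 1) * d := by rw [hddef]; ring
    rw [e2, ← hdet]
    linear_combination (Ω 1 1) * h1 0 0 - (Ω 1 0) * h1 0 1 + Ω 0 0 * h1 1 1 - Ω 0 1 * h1 1 0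
  set t : I → ℂ := fun e => (D (s e) - (Y (P e) 0 * (Ω 0 1 * U (Q e) 0 - Ω 0 0 * U (Q e) 1) +
            Y (P e) 1 * (Ω 1 1 * U (Q e) 0 - Ω 1 0 * U (Q e) 1))) / τ with ht
  set z : Fin m → ℂ := fun i => D (b i) / τ with hz
  have ht' : ∀ e, t e * τ = D (s e) - (Y (P e) 0 * (Ω 0 1 * U (Q e) 0 - Ω 0 0 * U (Q e) 1) +
            Y (P e) 1 * (Ω 1 1 * U (Q e) 0 - Ω 1 0 * U (Q e) 1)) := fun e => by
    rw [ht]
    exact div_mul_cancel₀ _ hτ
  have hz' : ∀ i, z i * τ = D (b i) := fun i => by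
    rw [hz]
    exact div_mul_cancel₀ _ hτ
  have key : lie P Q k A Y t z * mat P Q Ω τ U s b = (mat P Q Ω τ U s b).map D := by
    rw [lie_mul_mat P Q k A Ω τ hdet]
    have hAΩ : ∀ a c, (A * Ω) a c = D (Ω a c) := fun a c => by
      rw [Matrix.mul_apply, Fin.sum_univ_two, h1]
    unfold mat
    rw [bd_map _ _ _ _ _ (map_zero D)]
    simp only [b3_map _ (map_zero D), b4_map _ (map_zero D), b2_map _ (map_zero D), hAΩ, h2, h3,
      ht', hz', D.map_one_eq_zero]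
    congr 1
    · ext a c
      exact hAΩ a c
    · funext e
      congr 1
      · simp only [map_sub, Derivation.leibniz, smul_eq_mul]
        ring
      · simp only [map_sub, Derivation.leibniz, smul_eq_mul]
        ring
      · ring
  refine ⟨A, Y, t, z, ?_, h1, h2, h3, hz'⟩
  unfold InL
  have h5 := logder_mem hT D hc
  rw [← key, Matrix.mul_assoc, mul_inv' hT hc, Matrix.mul_one] at h5
  exact h5
end Pool.Agent.U725.OM
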