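import Pool.Agent.U725.OM.Lie
import Pool.Agent.U725.OM.Irr

/-!
# The matrices of the torsor and of its Lie algebra
-/

set_option autoImplicit false
set_option linter.unusedSectionVars false

open Matrix

namespace Pool.Agent.U725.OM

/-- the index set -/
abbrev BB (ρ : ℕ) (I : Type) (m : ℕ) : Type :=
  Fin 2 ⊕ ((Fin 3 × Fin ρ) ⊕ ((Fin 4 × I) ⊕ (Fin 2 × Fin m)))

/-- blocks of size four -/
def b4 (a x0 x1 a00 a01 a10 a11 t y0 y1 d : ℂ) : Matrix (Fin 4) (Fin 4) ℂ :=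
  !![a, 0, 0, 0; x0, a00, a01, 0; x1, a10, a11, 0; t, y0, y1, d]

/-- blocks of size three -/
def b3 (a00 a01 a10 a11 y0 y1 d : ℂ) : Matrix (Fin 3) (Fin 3) ℂ :=
  !![a00, a01, 0; a10, a11, 0; y0, y1, d]

/-- blocks of size two -/
def b2 (a z d : ℂ) : M2 := !![a, 0; z, d]

theorem b4_mul (a x0 x1 a00 a01 a10 a11 t y0 y1 d a' x0' x1' a00' a01' a10' a11' t' y0' y1' d' : ℂ) :
    b4 a x0 x1 a00 a01 a10 a11 t y0 y1 d * b4 a' x0' x1' a00' a01' a10' a11' t' y0' y1' d' =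
      b4 (a * a') (x0 * a' + a00 * x0' + a01 * x1') (x1 * a' + a10 * x0' + a11 * x1')
        (a00 * a00' + a01 * a10') (a00 * a01' + a01 * a11') (a10 * a00' + a11 * a10')
        (a10 * a01' + a11 * a11') (t * a' + y0 * x0' + y1 * x1' + d * t')
        (y0 * a00' + y1 * a10' + d * y0') (y0 * a01' + y1 * a11' + d * y1') (d * d') := by
  unfold b4
  ext i j
  fin_cases i <;> fin_cases j <;> simp [Matrix.mul_apply, Fin.sum_univ_four]

theorem b3_mul (a00 a01 a10 a11 y0 y1 d a00' a01' a10' a11' y0' y1' d' : ℂ) :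
    b3 a00 a01 a10 a11 y0 y1 d * b3 a00' a01' a10' a11' y0' y1' d' =
      b3 (a00 * a00' + a01 * a10') (a00 * a01' + a01 * a11') (a10 * a00' + a11 * a10')
        (a10 * a01' + a11 * a11')
        (y0 * a00' + y1 * a10' + d * y0') (y0 * a01' + y1 * a11' + d * y1') (d * d') := by
  unfold b3
  ext i j
  fin_cases i <;> fin_cases j <;> simp [Matrix.mul_apply, Fin.sum_univ_three]

theorem b2_mul (a z d a' z' d' : ℂ) :
    b2 a z d * b2 a' z' d' = b2 (a * a') (z * a' + d * z') (d * d') := by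
  unfold b2
  ext i j
  fin_cases i <;> fin_cases j <;> simp [Matrix.mul_apply, Fin.sum_univ_two]

theorem b4_add (a x0 x1 a00 a01 a10 a11 t y0 y1 d a' x0' x1' a00' a01' a10' a11' t' y0' y1' d' : ℂ) :
    b4 a x0 x1 a00 a01 a10 a11 t y0 y1 d + b4 a' x0' x1' a00' a01' a10' a11' t' y0' y1' d' =
      b4 (a + a') (x0 + x0') (x1 + x1') (a00 + a00') (a01 + a01') (a10 + a10') (a11 + a11')
        (t + t') (y0 + y0') (y1 + y1') (d + d') := by
  unfold b4
  ext i j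
  fin_cases i <;> fin_cases j <;> simp

theorem b3_add (a00 a01 a10 a11 y0 y1 d a00' a01' a10' a11' y0' y1' d' : ℂ) :
    b3 a00 a01 a10 a11 y0 y1 d + b3 a00' a01' a10' a11' y0' y1' d' =
      b3 (a00 + a00') (a01 + a01') (a10 + a10') (a11 + a11') (y0 + y0') (y1 + y1') (d + d') := by
  unfold b3
  ext i j
  fin_cases i <;> fin_cases j <;> simp

theorem b2_add (a z d a' z' d' : ℂ) :
    b2 a z d + b2 a' z' d' = b2 (a + a') (z + z') (d + d') := by
  unfold b2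
  ext i j
  fin_cases i <;> fin_cases j <;> simp

theorem b4_smul (s a x0 x1 a00 a01 a10 a11 t y0 y1 d : ℂ) :
    s • b4 a x0 x1 a00 a01 a10 a11 t y0 y1 d =
      b4 (s * a) (s * x0) (s * x1) (s * a00) (s * a01) (s * a10) (s * a11) (s * t) (s * y0)
        (s * y1) (s * d) := by
  unfold b4
  ext i j
  fin_cases i <;> fin_cases j <;> simp

theorem b3_smul (s a00 a01 a10 a11 y0 y1 d : ℂ) :
    s • b3 a00 a01 a10 a11 y0 y1 d =
      b3 (s * a00) (s * a01) (s * a10) (s * a11) (s * y0) (s * y1) (s * d) := by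
  unfold b3
  ext i j
  fin_cases i <;> fin_cases j <;> simp

theorem b2_smul (s a z d : ℂ) : s • b2 a z d = b2 (s * a) (s * z) (s * d) := by
  unfold b2
  ext i j
  fin_cases i <;> fin_cases j <;> simp

theorem b4_map (f : ℂ → ℂ) (hf : f 0 = 0) (a x0 x1 a00 a01 a10 a11 t y0 y1 d : ℂ) :
    (b4 a x0 x1 a00 a01 a10 a11 t y0 y1 d).map f =
      b4 (f a) (f x0) (f x1) (f a00) (f a01) (f a10) (f a11) (f t) (f y0) (f y1) (f d) := by
  unfold b4
  ext i j
  fin_cases i <;> fin_cases j <;> simp [hf]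

theorem b3_map (f : ℂ → ℂ) (hf : f 0 = 0) (a00 a01 a10 a11 y0 y1 d : ℂ) :
    (b3 a00 a01 a10 a11 y0 y1 d).map f =
      b3 (f a00) (f a01) (f a10) (f a11) (f y0) (f y1) (f d) := by
  unfold b3
  ext i j
  fin_cases i <;> fin_cases j <;> simp [hf]

theorem b2_map (f : ℂ → ℂ) (hf : f 0 = 0) (a z d : ℂ) :
    (b2 a z d).map f = b2 (f a) (f z) (f d) := by
  unfold b2
  ext i j
  fin_cases i <;> fin_cases j <;> simp [hf]

theorem b4_one : b4 1 0 0 1 0 0 1 0 0 0 1 = 1 := by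
  unfold b4
  ext i j
  fin_cases i <;> fin_cases j <;> simp

theorem b3_one : b3 1 0 0 1 0 0 1 = 1 := by
  unfold b3
  ext i j
  fin_cases i <;> fin_cases j <;> simp

theorem b2_one : b2 1 0 1 = 1 := by
  unfold b2
  ext i j
  fin_cases i <;> fin_cases j <;> simp

variable {ρ m : ℕ} {I : Type} [Fintype I] [DecidableEq I]

/-- block diagonal matrices -/
def bd (X : M2) (E : Fin ρ → Matrix (Fin 3) (Fin 3) ℂ) (F : I → Matrix (Fin 4) (Fin 4) ℂ)
    (G : Fin m → M2) : Matrix (BB ρ I m) (BB ρ I m) ℂ :=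
  fromBlocks X 0 0 (fromBlocks (blockDiagonal E) 0 0
    (fromBlocks (blockDiagonal F) 0 0 (blockDiagonal G)))

section bd

variable (X X' : M2) (E E' : Fin ρ → Matrix (Fin 3) (Fin 3) ℂ)
  (F F' : I → Matrix (Fin 4) (Fin 4) ℂ) (G G' : Fin m → M2)

theorem bd_mul : bd X E F G * bd X' E' F' G' =
    bd (X * X') (fun j => E j * E' j) (fun e => F e * F' e) (fun i => G i * G' i) := by
  unfold bd
  simp only [fromBlocks_multiply, Matrix.mul_zero, Matrix.zero_mul, add_zero, zero_add,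
    ← blockDiagonal_mul]

theorem bd_add : bd X E F G + bd X' E' F' G' =
    bd (X + X') (fun j => E j + E' j) (fun e => F e + F' e) (fun i => G i + G' i) := by
  unfold bd
  have h1 : (fun j => E j + E' j) = E + E' := rfl
  have h2 : (fun j => F j + F' j) = F + F' := rfl
  have h3 : (fun j => G j + G' j) = G + G' := rfl
  simp only [fromBlocks_add, add_zero, h1, h2, h3, blockDiagonal_add]

theorem bd_smul (s : ℂ) : s • bd X E F G =
    bd (s • X) (fun j => s • E j) (fun e => s • F e) (fun i => s • G i) := by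
  unfold bd
  have h1 : (fun j => s • E j) = s • E := rfl
  have h2 : (fun j => s • F j) = s • F := rfl
  have h3 : (fun j => s • G j) = s • G := rfl
  simp only [fromBlocks_smul, smul_zero, h1, h2, h3, blockDiagonal_smul]

theorem bd_one : bd (1 : M2) (fun _ : Fin ρ => 1) (fun _ : I => 1) (fun _ : Fin m => 1) = 1 := by
  unfold bd
  have h1 : (fun _ : Fin ρ => (1 : Matrix (Fin 3) (Fin 3) ℂ)) = 1 := rfl
  have h2 : (fun _ : I => (1 : Matrix (Fin 4) (Fin 4) ℂ)) = 1 := rfl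
  have h3 : (fun _ : Fin m => (1 : M2)) = 1 := rfl
  simp only [h1, h2, h3, blockDiagonal_one, fromBlocks_one]

theorem bd_map (f : ℂ → ℂ) (hf : f 0 = 0) : (bd X E F G).map f =
    bd (X.map f) (fun j => (E j).map f) (fun e => (F e).map f) (fun i => (G i).map f) := by
  unfold bd
  simp only [fromBlocks_map, blockDiagonal_map _ f hf, Matrix.map_zero f hf]

end bd

/-- the points of the torsor -/
def mat (P Q : I → Fin ρ) (X : M2) (l : ℂ) (Y : Fin ρ → Fin 2 → ℂ) (t : I → ℂ) (z : Fin m → ℂ) :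
    Matrix (BB ρ I m) (BB ρ I m) ℂ :=
  bd X
    (fun j => b3 (X 0 0) (X 0 1) (X 1 0) (X 1 1) (Y j 0) (Y j 1) 1)
    (fun e => b4 l (X 0 1 * Y (Q e) 0 - X 0 0 * Y (Q e) 1) (X 1 1 * Y (Q e) 0 - X 1 0 * Y (Q e) 1)
      (X 0 0) (X 0 1) (X 1 0) (X 1 1) (t e) (Y (P e) 0) (Y (P e) 1) 1)
    (fun i => b2 l (z i) 1)

/-- the elements of the Lie algebra -/
def lie (P Q : I → Fin ρ) (k : ℂ) (A : M2) (Y : Fin ρ → Fin 2 → ℂ) (t : I → ℂ) (z : Fin m → ℂ) :
    Matrix (BB ρ I m) (BB ρ I m) ℂ :=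
  bd A
    (fun j => b3 (A 0 0) (A 0 1) (A 1 0) (A 1 1) (Y j 0) (Y j 1) 0)
    (fun e => b4 (A 0 0 + A 1 1) (-(k * Y (Q e) 1)) (k * Y (Q e) 0)
      (A 0 0) (A 0 1) (A 1 0) (A 1 1) (t e) (Y (P e) 0) (Y (P e) 1) 0)
    (fun i => b2 (A 0 0 + A 1 1) (z i) 0)

variable (P Q : I → Fin ρ) (k : ℂ)

theorem lie_add (A A' : M2) (Y Y' : Fin ρ → Fin 2 → ℂ) (t t' : I → ℂ) (z z' : Fin m → ℂ) :
    lie P Q k A Y t z + lie P Q k A' Y' t' z' =
      lie P Q k (A + A') (Y + Y') (t + t') (z + z') := by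
  unfold lie
  rw [bd_add]
  simp only [b3_add, b4_add, b2_add, Matrix.add_apply, Pi.add_apply, add_zero]
  congr 1
  · funext e
    congr 1 <;> ring
  · funext e
    congr 1
    ring

theorem lie_smul (s : ℂ) (A : M2) (Y : Fin ρ → Fin 2 → ℂ) (t : I → ℂ) (z : Fin m → ℂ) :
    s • lie P Q k A Y t z = lie P Q k (s • A) (s • Y) (s • t) (s • z) := by
  unfold lie
  rw [bd_smul]
  simp only [b3_smul, b4_smul, b2_smul, Matrix.smul_apply, Pi.smul_apply, smul_eq_mul, mul_zero]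
  congr 1
  · funext e
    congr 1 <;> ring
  · funext e
    congr 1
    ring

theorem lie_sub (A A' : M2) (Y Y' : Fin ρ → Fin 2 → ℂ) (t t' : I → ℂ) (z z' : Fin m → ℂ) :
    lie P Q k A Y t z - lie P Q k A' Y' t' z' =
      lie P Q k (A - A') (Y - Y') (t - t') (z - z') := by
  have h : lie P Q k A Y t z - lie P Q k A' Y' t' z' =
      lie P Q k A Y t z + (-1 : ℂ) • lie P Q k A' Y' t' z' := by
    rw [neg_one_smul, sub_eq_add_neg]
  rw [h, lie_smul, lie_add]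
  simp only [neg_one_smul, ← sub_eq_add_neg]

/-- the products -/
theorem lie_mul (A A' : M2) (Y Y' : Fin ρ → Fin 2 → ℂ) (t t' : I → ℂ) (z z' : Fin m → ℂ) :
    lie P Q k A Y t z * lie P Q k A' Y' t' z' =
      bd (A * A')
        (fun j => b3 ((A * A') 0 0) ((A * A') 0 1) ((A * A') 1 0) ((A * A') 1 1)
          (Y j 0 * A' 0 0 + Y j 1 * A' 1 0) (Y j 0 * A' 0 1 + Y j 1 * A' 1 1) 0)
        (fun e => b4 ((A 0 0 + A 1 1) * (A' 0 0 + A' 1 1))
          (-(k * Y (Q e) 1) * (A' 0 0 + A' 1 1) + k * (A 0 1 * Y' (Q e) 0 - A 0 0 * Y' (Q e) 1))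
          (k * Y (Q e) 0 * (A' 0 0 + A' 1 1) + k * (A 1 1 * Y' (Q e) 0 - A 1 0 * Y' (Q e) 1))
          ((A * A') 0 0) ((A * A') 0 1) ((A * A') 1 0) ((A * A') 1 1)
          (t e * (A' 0 0 + A' 1 1) + k * (Y (P e) 1 * Y' (Q e) 0 - Y (P e) 0 * Y' (Q e) 1))
          (Y (P e) 0 * A' 0 0 + Y (P e) 1 * A' 1 0) (Y (P e) 0 * A' 0 1 + Y (P e) 1 * A' 1 1) 0)
        (fun i => b2 ((A 0 0 + A 1 1) * (A' 0 0 + A' 1 1)) (z i * (A' 0 0 + A' 1 1)) 0) := by
  have hA : ∀ a b, (A * A') a b = A a 0 * A' 0 b + A a 1 * A' 1 b := fun a b => by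
    rw [Matrix.mul_apply, Fin.sum_univ_two]
  unfold lie
  rw [bd_mul]
  simp only [b3_mul, b4_mul, b2_mul, hA, zero_mul, add_zero]
  congr 1
  funext e
  congr 1 <;> ring

/-- the bracket -/
theorem lie_br (A A' : M2) (Y Y' : Fin ρ → Fin 2 → ℂ) (t t' : I → ℂ) (z z' : Fin m → ℂ) :
    lie P Q k A Y t z * lie P Q k A' Y' t' z' - lie P Q k A' Y' t' z' * lie P Q k A Y t z =
      lie P Q k (A * A' - A' * A)
        (fun j b => (Y j 0 * A' 0 b + Y j 1 * A' 1 b) - (Y' j 0 * A 0 b + Y' j 1 * A 1 b))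
        (fun e => t e * (A' 0 0 + A' 1 1) + k * (Y (P e) 1 * Y' (Q e) 0 - Y (P e) 0 * Y' (Q e) 1) -
          (t' e * (A 0 0 + A 1 1) + k * (Y' (P e) 1 * Y (Q e) 0 - Y' (P e) 0 * Y (Q e) 1)))
        (fun i => z i * (A' 0 0 + A' 1 1) - z' i * (A 0 0 + A 1 1)) := by
  have hA : ∀ a b, (A * A' - A' * A) a b = A a 0 * A' 0 b + A a 1 * A' 1 b -
      (A' a 0 * A 0 b + A' a 1 * A 1 b) := fun a b => by
    rw [Matrix.sub_apply, Matrix.mul_apply, Matrix.mul_apply, Fin.sum_univ_two, Fin.sum_univ_two]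
  have hA1 : ∀ a b, (A * A') a b = A a 0 * A' 0 b + A a 1 * A' 1 b := fun a b => by
    rw [Matrix.mul_apply, Fin.sum_univ_two]
  have hA2 : ∀ a b, (A' * A) a b = A' a 0 * A 0 b + A' a 1 * A 1 b := fun a b => by
    rw [Matrix.mul_apply, Fin.sum_univ_two]
  have h : ∀ X Y : Matrix (BB ρ I m) (BB ρ I m) ℂ, X - Y = X + (-1 : ℂ) • Y := by
    intro X Y
    rw [neg_one_smul, sub_eq_add_neg]
  rw [h, lie_mul, lie_mul, bd_smul, bd_add]
  unfold lie
  simp only [b3_smul, b4_smul, b2_smul, b3_add, b4_add, b2_add, hA, hA1, hA2]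
  congr 1
  · rw [neg_one_smul, sub_eq_add_neg]
  · funext j
    congr 1 <;> ring
  · funext e
    congr 1 <;> ring
  · funext i
    congr 1 <;> ring

theorem lie_map (σ : ℂ →+* ℂ) (hk : σ k = k) (A : M2) (Y : Fin ρ → Fin 2 → ℂ) (t : I → ℂ)
    (z : Fin m → ℂ) : (lie P Q k A Y t z).map σ =
      lie P Q k (A.map σ) (fun j b => σ (Y j b)) (fun e => σ (t e)) (fun i => σ (z i)) := by
  unfold lie
  rw [bd_map _ _ _ _ _ (map_zero σ)]
  simp only [b3_map _ (map_zero σ), b4_map _ (map_zero σ), b2_map _ (map_zero σ), map_add, map_neg,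
    map_mul, hk, map_zero, Matrix.map_apply]

/-- the derivative of a point of the torsor -/
theorem lie_mul_mat (A X : M2) (l : ℂ) (hl : X 0 0 * X 1 1 - X 0 1 * X 1 0 = k * l)
    (Y U : Fin ρ → Fin 2 → ℂ) (t s : I → ℂ) (z b : Fin m → ℂ) :
    lie P Q k A Y t z * mat P Q X l U s b =
      bd (A * X)
        (fun j => b3 ((A * X) 0 0) ((A * X) 0 1) ((A * X) 1 0) ((A * X) 1 1)
          (Y j 0 * X 0 0 + Y j 1 * X 1 0) (Y j 0 * X 0 1 + Y j 1 * X 1 1) 0)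
        (fun e => b4 ((A 0 0 + A 1 1) * l)
          ((A * X) 0 1 * U (Q e) 0 - (A * X) 0 0 * U (Q e) 1 +
            (X 0 1 * (Y (Q e) 0 * X 0 0 + Y (Q e) 1 * X 1 0) -
              X 0 0 * (Y (Q e) 0 * X 0 1 + Y (Q e) 1 * X 1 1)))
          ((A * X) 1 1 * U (Q e) 0 - (A * X) 1 0 * U (Q e) 1 +
            (X 1 1 * (Y (Q e) 0 * X 0 0 + Y (Q e) 1 * X 1 0) -
              X 1 0 * (Y (Q e) 0 * X 0 1 + Y (Q e) 1 * X 1 1)))
          ((A * X) 0 0) ((A * X) 0 1) ((A * X) 1 0) ((A * X) 1 1)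
          (t e * l + (Y (P e) 0 * (X 0 1 * U (Q e) 0 - X 0 0 * U (Q e) 1) +
            Y (P e) 1 * (X 1 1 * U (Q e) 0 - X 1 0 * U (Q e) 1)))
          (Y (P e) 0 * X 0 0 + Y (P e) 1 * X 1 0) (Y (P e) 0 * X 0 1 + Y (P e) 1 * X 1 1) 0)
        (fun i => b2 ((A 0 0 + A 1 1) * l) (z i * l) 0) := by
  have hA : ∀ a b, (A * X) a b = A a 0 * X 0 b + A a 1 * X 1 b := fun a b => by
    rw [Matrix.mul_apply, Fin.sum_univ_two]
  unfold lie mat
  rw [bd_mul]
  simp only [b3_mul, b4_mul, b2_mul, hA, zero_mul, add_zero]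
  congr 1
  funext e
  congr 1
  · linear_combination (Y (Q e) 1) * hl
  · linear_combination -(Y (Q e) 0) * hl
  · ring

end Pool.Agent.U725.OM
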